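import Mathlib
import Pool.Agent.TH855.Hom

set_option autoImplicit false

/-!
# Homomorphisms of partial blow-ups
-/

namespace Pool.Agent.Helper54.AK

open Finset Classical Pool.Agent.TH855

set_option linter.unusedSectionVars false

section Conn

variable {Y U : Type}

theorem reach_comap (K : SimpleGraph U) (f : Y → U) (hf : Function.Surjective f)
    (hn : ∀ u, ∃ v, K.Adj u v) {u u' : U} (p : K.Walk u u') :
    ∀ y y', f y = u → f y' = u' → (K.comap f).Reachable y y' := by
  induction p with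
  | nil =>
    intro y y' h1 h2
    obtain ⟨v, hv⟩ := hn (f y)
    obtain ⟨y1, hy1⟩ := hf v
    have e1 : (K.comap f).Adj y y1 := by
      rw [SimpleGraph.comap_adj, hy1]; exact hv
    have e2 : (K.comap f).Adj y1 y' := by
      rw [SimpleGraph.comap_adj, hy1, h2, ← h1]; exact hv.symm
    exact e1.reachable.trans e2.reachable
  | @cons a b c hab q ih =>
    intro y y' h1 h2
    obtain ⟨y1, hy1⟩ := hf b
    have e1 : (K.comap f).Adj y y1 := by
      rw [SimpleGraph.comap_adj, hy1, h1]; exact hab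
    exact e1.reachable.trans (ih y1 y' hy1 h2)

theorem conn_comap (K : SimpleGraph U) (hK : K.Connected) (f : Y → U)
    (hf : Function.Surjective f) (hn : ∀ u, ∃ v, K.Adj u v) : (K.comap f).Connected := by
  have hne : Nonempty Y := by
    obtain ⟨u⟩ := hK.nonempty
    obtain ⟨y, -⟩ := hf u
    exact ⟨y⟩
  refine ⟨?_⟩
  intro y y'
  obtain ⟨p⟩ := hK.preconnected (f y) (f y')
  exact reach_comap K f hf hn p y y' rfl rfl

end Conn

section Two

variable {U : Type} [Fintype U] (H : SimpleGraph U)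

/-- `H` has at least three vertices and stays connected when any vertex is deleted -/
def TwoConn : Prop := 3 ≤ Fintype.card U ∧ ∀ z : U, (H.induce {u | u ≠ z}).Connected

variable {H}

theorem TwoConn.nbr (h : TwoConn H) (z : U) (u : {u | u ≠ z}) :
    ∃ v, (H.induce {u | u ≠ z}).Adj u v := by
  have h1 : 1 < Fintype.card {u | u ≠ z} := by
    have h2 : Fintype.card {u | u ≠ z} = Fintype.card U - 1 := by
      have : Fintype.card {u | u ≠ z} = Fintype.card {u // u ≠ z} := rfl
      rw [this, Fintype.card_subtype_compl]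
      simp
    have := h.1
    omega
  have : Nontrivial {u | u ≠ z} := Fintype.one_lt_card_iff_nontrivial.1 h1
  exact (h.2 z).preconnected.exists_adj_of_nontrivial u

theorem TwoConn.two (h : TwoConn H) (z i : U) (hz : i ≠ z) : ∃ j, j ≠ z ∧ H.Adj i j := by
  obtain ⟨v, hv⟩ := h.nbr z ⟨i, hz⟩
  exact ⟨v.1, v.2, by simpa using hv⟩

theorem TwoConn.conn (h : TwoConn H) : H.Connected := by
  have hne : Nonempty U := by
    rw [← Fintype.card_pos_iff]
    have := h.1
    omega
  refine ⟨?_⟩
  intro a b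
  obtain ⟨z, hz⟩ : ∃ z, z ∉ ({a, b} : Finset U) := by
    by_contra hcon
    push Not at hcon
    have h1 : (univ : Finset U).card ≤ ({a, b} : Finset U).card :=
      Finset.card_le_card (fun u _ => hcon u)
    have h2 := Finset.card_le_two (a := a) (b := b)
    rw [Finset.card_univ] at h1
    have := h.1
    omega
  simp only [Finset.mem_insert, Finset.mem_singleton, not_or] at hz
  obtain ⟨p⟩ := (h.2 z).preconnected ⟨a, fun e => hz.1 e.symm⟩ ⟨b, fun e => hz.2 e.symm⟩
  exact ⟨p.map (SimpleGraph.Embedding.induce _).toHom⟩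

end Two

section Blow

variable {U V : Type} [Fintype U] [Fintype V] (H : SimpleGraph U) (G : SimpleGraph V) (m : ℕ)

/-- homomorphisms of the blow-up with classes of size `m + 1` -/
def IsB (Φ : U → Fin (m + 1) → V) : Prop :=
  ∀ u u', H.Adj u u' → ∀ a b, G.Adj (Φ u a) (Φ u' b)

/-- homomorphisms of the partial blow-up in the classes of `J` -/
noncomputable def A (J : Finset U) : Finset (U → Fin (m + 1) → V) :=
  univ.filter (fun Φ => IsB H G m Φ ∧ ∀ u, u ∉ J → ∀ a, Φ u a = Φ u 0)

/-- the same without the class of `z` -/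
noncomputable def Rs (z : U) (J : Finset U) : Finset ({u // u ≠ z} → Fin (m + 1) → V) :=
  univ.filter (fun g => (∀ u u' : {u // u ≠ z}, H.Adj u.1 u'.1 → ∀ a b, G.Adj (g u a) (g u' b)) ∧
    ∀ u, u.1 ∉ J → ∀ a, g u a = g u 0)

/-- the number of vertices of the partial blow-up -/
theorem card_Y (z : U) (J : Finset U) (hz : z ∉ J) :
    Fintype.card {p : U × Fin (m + 1) // p.1 ≠ z ∧ (p.1 ∈ J ∨ p.2 = 0)} ≤
      J.card * (m + 1) + (Fintype.card U - 1 - J.card) := by
  rw [Fintype.card_subtype]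
  have hsub : (univ.filter (fun p : U × Fin (m + 1) => p.1 ≠ z ∧ (p.1 ∈ J ∨ p.2 = 0))) ⊆
      (J ×ˢ (univ : Finset (Fin (m + 1)))) ∪ (((univ.erase z) \ J) ×ˢ ({0} : Finset (Fin (m + 1)))) := by
    rintro ⟨u, a⟩ hp
    rw [Finset.mem_filter] at hp
    obtain ⟨-, hp1, hp2⟩ := hp
    rw [Finset.mem_union, Finset.mem_product, Finset.mem_product]
    by_cases hu : u ∈ J
    · left; exact ⟨hu, Finset.mem_univ _⟩
    · right
      refine ⟨?_, ?_⟩
      · rw [Finset.mem_sdiff, Finset.mem_erase]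
        exact ⟨⟨hp1, Finset.mem_univ _⟩, hu⟩
      · rw [Finset.mem_singleton]
        exact hp2.resolve_left hu
  refine (Finset.card_le_card hsub).trans ((Finset.card_union_le _ _).trans ?_)
  rw [Finset.card_product, Finset.card_product, Finset.card_univ, Fintype.card_fin,
    Finset.card_singleton, mul_one]
  refine Nat.add_le_add_left ?_ _
  have hJ : J ⊆ univ.erase z := by
    intro u hu
    rw [Finset.mem_erase]
    exact ⟨fun e => hz (e ▸ hu), Finset.mem_univ _⟩
  rw [Finset.card_sdiff_of_subset hJ, Finset.card_erase_of_mem (Finset.mem_univ _), Finset.card_univ]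

theorem card_Rs (h2 : TwoConn H) (D : ℕ) (hD1 : 1 ≤ D)
    (hD : ∀ v, ∀ N : Finset V, (∀ w ∈ N, G.Adj v w) → N.card ≤ D) (z : U) (J : Finset U)
    (hz : z ∉ J) :
    (Rs H G m z J).card ≤
      D ^ (J.card * (m + 1) + (Fintype.card U - 1 - J.card) - 1) * Fintype.card V := by
  set Y := {p : U × Fin (m + 1) // p.1 ≠ z ∧ (p.1 ∈ J ∨ p.2 = 0)} with hY
  set f : Y → {u | u ≠ z} := fun p => ⟨p.1.1, p.2.1⟩ with hf
  have hsurj : Function.Surjective f := by
    rintro ⟨u, hu⟩
    exact ⟨⟨(u, 0), hu, Or.inr rfl⟩, rfl⟩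
  have hconn := conn_comap (H.induce {u | u ≠ z}) (h2.2 z) f hsurj (h2.nbr z)
  set K := (H.induce {u | u ≠ z}).comap f with hK
  obtain ⟨y0⟩ := hconn.nonempty
  set F : ({u // u ≠ z} → Fin (m + 1) → V) → (Y → V) := fun g y => g ⟨y.1.1, y.2.1⟩ y.1.2 with hF
  have hinj : Set.InjOn F (Rs H G m z J : Set _) := by
    intro g hg g' hg' hgg
    rw [Finset.mem_coe, Rs, Finset.mem_filter] at hg hg'
    funext u a
    by_cases hu : u.1 ∈ J
    · exact congrFun hgg ⟨(u.1, a), u.2, Or.inl hu⟩
    · rw [hg.2.2 u hu a, hg'.2.2 u hu a]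
      exact congrFun hgg ⟨(u.1, 0), u.2, Or.inr rfl⟩
  rw [← Finset.card_image_of_injOn hinj]
  refine (count_in' K hconn G D hD {y0} (Finset.singleton_nonempty _) univ _ ?_).trans ?_
  · intro ψ hψ
    rw [Finset.mem_image] at hψ
    obtain ⟨g, hg, rfl⟩ := hψ
    rw [Rs, Finset.mem_filter] at hg
    refine ⟨?_, fun _ _ => Finset.mem_univ _⟩
    intro a b hab
    exact hg.2.1 _ _ (by simpa [hK] using hab) _ _
  · rw [Finset.card_singleton, pow_one, Finset.card_univ]
    refine Nat.mul_le_mul_right _ (Nat.pow_le_pow_right hD1 ?_)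
    have := card_Y m z J hz
    exact Nat.sub_le_sub_right this 1

/-- the common neighbours of the classes adjacent to `z` -/
noncomputable def Nb (z : U) (g : {u // u ≠ z} → Fin (m + 1) → V) : Finset V :=
  univ.filter (fun v => ∀ u : {u // u ≠ z}, H.Adj z u.1 → ∀ a, G.Adj v (g u a))

theorem rest_mem {z : U} {J : Finset U} {Φ : U → Fin (m + 1) → V} (h : Φ ∈ A H G m J) :
    (fun u : {u // u ≠ z} => Φ u.1) ∈ Rs H G m z J := by
  rw [A, Finset.mem_filter] at h
  rw [Rs, Finset.mem_filter]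
  exact ⟨Finset.mem_univ _, fun u u' huu a b => h.2.1 _ _ huu a b, fun u hu a => h.2.2 _ hu a⟩

theorem A_upper (z : U) (J : Finset U) (hz : z ∉ J) :
    (A H G m J).card ≤ ∑ g ∈ Rs H G m z J, (Nb H G m z g).card := by
  set π : (U → Fin (m + 1) → V) → ({u // u ≠ z} → Fin (m + 1) → V) := fun Φ u => Φ u.1 with hπ
  rw [Finset.card_eq_sum_card_fiberwise (f := π) (t := Rs H G m z J)
    (fun Φ hΦ => rest_mem H G m hΦ)]
  refine Finset.sum_le_sum (fun g _ => ?_)
  refine Finset.card_le_card_of_injOn (fun Φ => Φ z 0) ?_ ?_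
  · intro Φ hΦ
    rw [Finset.mem_coe, Finset.mem_filter, A, Finset.mem_filter] at hΦ
    rw [Finset.mem_coe, Nb, Finset.mem_filter]
    refine ⟨Finset.mem_univ _, ?_⟩
    intro u hu a
    rw [← hΦ.2]
    exact hΦ.1.2.1 z u.1 hu 0 a
  · intro Φ hΦ Φ' hΦ' h0
    rw [Finset.mem_coe, Finset.mem_filter, A, Finset.mem_filter] at hΦ hΦ'
    simp only at h0
    funext u a
    by_cases hu : u = z
    · subst hu
      rw [hΦ.1.2.2 u hz a, hΦ'.1.2.2 u hz a, h0]
    · have := congrFun (congrFun (hΦ.2.trans hΦ'.2.symm) ⟨u, hu⟩) a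
      exact this

theorem A_lower (z : U) (J : Finset U) (_hz : z ∉ J) :
    ∑ g ∈ Rs H G m z J, (Nb H G m z g).card ^ (m + 1) ≤ (A H G m (insert z J)).card := by
  set π : (U → Fin (m + 1) → V) → ({u // u ≠ z} → Fin (m + 1) → V) := fun Φ u => Φ u.1 with hπ
  have h1 : ∑ g ∈ Rs H G m z J, ((A H G m (insert z J)).filter (fun Φ => π Φ = g)).card ≤
      (A H G m (insert z J)).card := by
    rw [← Finset.card_biUnion]
    · refine Finset.card_le_card ?_
      intro Φ hΦ
      rw [Finset.mem_biUnion] at hΦ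
      obtain ⟨g, -, hg⟩ := hΦ
      exact (Finset.mem_filter.1 hg).1
    · intro g _ g' _ hgg
      rw [Function.onFun, Finset.disjoint_left]
      intro Φ h1 h2
      exact hgg ((Finset.mem_filter.1 h1).2.symm.trans (Finset.mem_filter.1 h2).2)
  refine le_trans (Finset.sum_le_sum (fun g hg => ?_)) h1
  rw [Rs, Finset.mem_filter] at hg
  have h3 : (Nb H G m z g).card ^ (m + 1) =
      (Fintype.piFinset (fun _ : Fin (m + 1) => Nb H G m z g)).card := by
    rw [Fintype.card_piFinset]; simp
  rw [h3]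
  refine Finset.card_le_card_of_injOn
    (fun F u => if h : u = z then F else g ⟨u, h⟩) ?_ ?_
  · intro F hF
    rw [Finset.mem_coe, Fintype.mem_piFinset] at hF
    have hN : ∀ a, ∀ u : {u // u ≠ z}, H.Adj z u.1 → ∀ b, G.Adj (F a) (g u b) := by
      intro a
      have := hF a
      rw [Nb, Finset.mem_filter] at this
      exact this.2
    rw [Finset.mem_coe, Finset.mem_filter, A, Finset.mem_filter]
    refine ⟨⟨Finset.mem_univ _, ?_, ?_⟩, ?_⟩
    · intro u u' huu a b
      by_cases h : u = z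
      · have h' : u' ≠ z := by rintro rfl; exact huu.ne h
        simp only [h, h', dif_pos, dif_neg, not_false_eq_true]
        subst h
        exact hN a ⟨u', h'⟩ huu b
      · by_cases h' : u' = z
        · simp only [h, h', dif_pos, dif_neg, not_false_eq_true]
          subst h'
          exact (hN b ⟨u, h⟩ huu.symm a).symm
        · simp only [h, h', dif_neg, not_false_eq_true]
          exact hg.2.1 ⟨u, h⟩ ⟨u', h'⟩ huu a b
    · intro u hu a
      rw [Finset.mem_insert, not_or] at hu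
      simp only [hu.1, dif_neg, not_false_eq_true]
      exact hg.2.2 ⟨u, hu.1⟩ hu.2 a
    · funext u a
      have : u.1 ≠ z := u.2
      simp only [hπ, this, dif_neg, not_false_eq_true]
  · intro F _ F' _ h
    have := congrFun h z
    simpa using this

/-- **blowing up one more class** -/
theorem step (z : U) (J : Finset U) (hz : z ∉ J) :
    ((A H G m J).card : ℝ) ^ (m + 1) ≤
      ((Rs H G m z J).card : ℝ) ^ m * ((A H G m (insert z J)).card : ℝ) := by
  have h1 : ((A H G m J).card : ℝ) ≤ ∑ g ∈ Rs H G m z J, ((Nb H G m z g).card : ℝ) := by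
    exact_mod_cast A_upper H G m z J hz
  have h2 : ∑ g ∈ Rs H G m z J, ((Nb H G m z g).card : ℝ) ^ (m + 1) ≤
      ((A H G m (insert z J)).card : ℝ) := by
    exact_mod_cast A_lower H G m z J hz
  calc ((A H G m J).card : ℝ) ^ (m + 1) ≤
      (∑ g ∈ Rs H G m z J, ((Nb H G m z g).card : ℝ)) ^ (m + 1) :=
        pow_le_pow_left₀ (by positivity) h1 _
    _ ≤ ((Rs H G m z J).card : ℝ) ^ m *
        ∑ g ∈ Rs H G m z J, ((Nb H G m z g).card : ℝ) ^ (m + 1) :=
        pow_sum_le_card_mul_sum_pow (fun _ _ => by positivity) _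
    _ ≤ _ := mul_le_mul_of_nonneg_left h2 (by positivity)

end Blow

end Pool.Agent.Helper54.AK
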