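import Mathlib
import Pool.Agent.Helper54.AK.Types

set_option autoImplicit false

/-!
# Colouring graphs in which every vertex owns few configurations
-/

namespace Pool.Agent.Helper54.AK

open Finset Filter Classical Pool.Agent.Helper635.LLL Pool.Agent.Helper311.Glue Pool.Agent.TH855

set_option linter.unusedSectionVars false

theorem engine_own {U U' : Type} [Fintype U] (H : SimpleGraph U') {c : ℝ} (hc : 0 ≤ c)
    (hGB : GB H c) (H0 : SimpleGraph U) (hH0 : H0.Connected) (k : ℕ) (hk : 1 ≤ k)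
    (hU : Fintype.card U = k + 1) (γ : ℝ) (hγ0 : 0 < γ) (hγ1 : γ ≤ 1) (C0 : ℝ) (hC0 : 0 ≤ C0) :
    ∀ ε : ℝ, 0 < ε → ∃ D₀ : ℕ, ∀ D : ℕ, D₀ ≤ D →
      ∀ (V : Type) [Fintype V] (G : SimpleGraph V) [DecidableRel G.Adj], (∀ v, G.degree v ≤ D) →
        ∀ Ψ : Finset (U → V), (∀ ψ ∈ Ψ, Function.Injective ψ ∧ IsHom H0 G ψ) →
        ∀ own : (U → V) → V, (∀ ψ ∈ Ψ, ∃ z, ψ z = own ψ) →
        (∀ y, ((Ψ.filter (fun ψ => own ψ = y)).card : ℝ) ≤
          C0 * Real.exp ((k - γ) * Real.log D)) →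
        (∀ T : Set V, Cp H G T → ∃ ψ ∈ Ψ, Set.range ψ ⊆ T) →
        ∃ n : ℕ, (n : ℝ) ≤ (k / γ * c + ε) * ((D : ℝ) / Real.log D) ∧ ColOn G Set.univ n := by
  intro ε hε
  have hkpos : (0 : ℝ) < k := by exact_mod_cast hk
  have hk1 : (1 : ℝ) ≤ k := by exact_mod_cast hk
  obtain ⟨h, hh⟩ := exists_near H0 hH0
  -- parameters
  set δ : ℝ := min (1 / 4) (ε * γ / (2 * k * (5 * c + 6))) with hδ
  have hδ4 : δ ≤ 1 / 4 := min_le_left _ _
  have hδε : δ ≤ ε * γ / (2 * k * (5 * c + 6)) := min_le_right _ _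
  have hδ0 : 0 < δ := lt_min (by norm_num) (by positivity)
  set η : ℝ := γ * δ / (2 * k) with hη
  have hη0 : 0 < η := by positivity
  have hηk : 2 * k * η = γ * δ := by rw [hη]; field_simp
  set θ : ℝ := γ / k - η with hθ
  have hkk : (k : ℝ) * (γ / k) = γ := by field_simp
  have hγδ : 0 < γ * δ := by positivity
  have hθk : (k : ℝ) * θ = γ - γ * δ / 2 := by
    rw [hθ, mul_sub, hkk]; linarith
  have hθ0 : 0 < θ := by
    have : 0 < (k : ℝ) * θ := by
      rw [hθk]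
      have : γ * δ ≤ γ * (1 / 4) := mul_le_mul_of_nonneg_left hδ4 hγ0.le
      linarith
    exact (pos_iff_pos_of_mul_pos this).1 hkpos
  have hθ1 : θ ≤ 1 := by
    have : θ ≤ k * θ := by
      have := mul_nonneg (sub_nonneg.2 hk1) hθ0.le
      linarith
    rw [hθk] at this; linarith
  set p : ℕ := ⌈(2 * (h + 1) + 1 : ℝ) / (γ * δ / 4)⌉₊ with hp
  have hpδ : (2 * (h + 1) + 1 : ℝ) ≤ p * (γ * δ / 4) := by
    have := Nat.le_ceil ((2 * (h + 1) + 1 : ℝ) / (γ * δ / 4))
    rw [div_le_iff₀ (by positivity)] at this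
    exact this
  set C' : ℝ := C0 + 2 ^ (k + 1) * (((p * (k + 1) : ℕ) : ℝ) + 1) ^ (k + 1) with hC'
  have hC'0 : 0 < C' := by rw [hC']; positivity
  obtain ⟨y₀, hy₀⟩ := hGB δ hδ0
  -- eventual inequalities
  have E0 : ∀ᶠ L : ℝ in atTop, 1 ≤ L := eventually_ge_atTop 1
  have E1 : ∀ᶠ L : ℝ in atTop, 2 * max y₀ 2 ≤ Real.exp (θ * L) :=
    (Real.tendsto_exp_atTop.comp (tendsto_id.const_mul_atTop hθ0)).eventually_ge_atTop _
  have E2 : ∀ᶠ L : ℝ in atTop, Real.log 2 ≤ η * L :=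
    (tendsto_id.const_mul_atTop hη0).eventually_ge_atTop _
  have E3 : ∀ᶠ L : ℝ in atTop, Real.exp (-(1 * L)) * (L + 1) ^ 0 ≤
      1 / (8 * (C' ^ p * 2 ^ (2 * (h + 1)))) := asy_exp one_pos (by positivity) 0
  set a : ℝ := δ ^ 2 / 6 with ha
  have ha0 : 0 < a := by positivity
  have E4 : ∀ᶠ L : ℝ in atTop, (2 * (h + 1) + 2 : ℝ) ≤ a * θ ^ 2 / 2 * L :=
    (tendsto_id.const_mul_atTop (by positivity)).eventually_ge_atTop _
  have E5 : ∀ᶠ L : ℝ in atTop, Real.exp (-(1 * L)) * (L + 1) ^ 0 ≤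
      1 / (8 * (2 * 2 ^ (2 * (h + 1)))) := asy_exp one_pos (by positivity) 0
  have E6 : ∀ᶠ L : ℝ in atTop, Real.exp (-(γ * δ / 4 * L)) * (L + 1) ^ 1 ≤ ε / (2 * 5) :=
    asy_exp (by positivity) (by positivity) 1
  have E := (((((E0.and E1).and E2).and E3).and E4).and E5).and E6
  have hlogtend : Tendsto (fun n : ℕ => Real.log (n : ℝ)) atTop atTop :=
    Real.tendsto_log_atTop.comp tendsto_natCast_atTop_atTop
  obtain ⟨D₀, hD₀⟩ := eventually_atTop.1 (hlogtend.eventually E)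
  refine ⟨max D₀ 1, ?_⟩
  intro D hD V _ G _ hdeg Ψ hΨ own hown hM hhit
  obtain ⟨⟨⟨⟨⟨⟨e0, e1⟩, e2⟩, e3⟩, e4⟩, e5⟩, e6⟩ := hD₀ D ((le_max_left _ _).trans hD)
  set L := Real.log (D : ℝ) with hL
  have hD1 : (1 : ℝ) ≤ D := by exact_mod_cast (le_max_right _ _).trans hD
  have hDexp : (D : ℝ) = Real.exp L := by rw [hL, Real.exp_log (by linarith)]
  have hL0 : 0 < L := by linarith
  rw [one_mul, pow_zero, mul_one] at e3 e5
  -- the number of parts
  set K : ℕ := ⌈Real.exp ((1 - θ) * L)⌉₊ with hK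
  have hKl : Real.exp ((1 - θ) * L) ≤ K := Nat.le_ceil _
  have hexpK1 : 1 ≤ Real.exp ((1 - θ) * L) := Real.one_le_exp (mul_nonneg (by linarith) hL0.le)
  have hK1r : (1 : ℝ) ≤ K := hexpK1.trans hKl
  have hK1 : 1 ≤ K := by exact_mod_cast hK1r
  have hKpos : (0 : ℝ) < K := by linarith
  have hKu : (K : ℝ) ≤ 2 * Real.exp ((1 - θ) * L) := by
    have := Nat.ceil_lt_add_one (Real.exp_pos ((1 - θ) * L)).le
    rw [← hK] at this
    linarith
  have hsplit : Real.exp ((1 - θ) * L) * Real.exp (θ * L) = D := by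
    rw [hDexp, ← Real.exp_add]; congr 1; ring
  have hDK1 : (D : ℝ) / K ≤ Real.exp (θ * L) := by
    rw [div_le_iff₀ hKpos, ← hsplit, mul_comm]
    exact mul_le_mul_of_nonneg_left hKl (Real.exp_pos _).le
  have hDK2 : Real.exp (θ * L) / 2 ≤ (D : ℝ) / K := by
    rw [div_le_div_iff₀ two_pos hKpos, ← hsplit]
    have := mul_le_mul_of_nonneg_left hKu (Real.exp_pos (θ * L)).le
    linarith
  have hexpθ : 4 ≤ Real.exp (θ * L) := by
    have := le_max_right y₀ 2
    linarith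
  have hKD : K ≤ D := by
    have h1 : (1 : ℝ) ≤ (D : ℝ) / K := by linarith
    rw [le_div_iff₀ hKpos, one_mul] at h1
    exact_mod_cast h1
  -- the threshold for bad vertices
  set m0 : ℕ := ⌈Real.exp ((1 - γ * δ / 4) * L)⌉₊ with hm0
  have hγδ1 : γ * δ ≤ 1 := by
    have : γ * δ ≤ 1 * (1 / 4) := mul_le_mul hγ1 hδ4 hδ0.le (by norm_num)
    linarith
  have hm0l : Real.exp ((1 - γ * δ / 4) * L) ≤ m0 := Nat.le_ceil _
  have hm0e : 1 ≤ Real.exp ((1 - γ * δ / 4) * L) :=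
    Real.one_le_exp (mul_nonneg (by linarith) hL0.le)
  have hm01 : 1 ≤ m0 := by
    have : (1 : ℝ) ≤ m0 := hm0e.trans hm0l
    exact_mod_cast this
  have hm0pos : (0 : ℝ) < m0 := by exact_mod_cast hm01
  have hm0u : (m0 : ℝ) ≤ 2 * Real.exp ((1 - γ * δ / 4) * L) := by
    have := Nat.ceil_lt_add_one (Real.exp_pos ((1 - γ * δ / 4) * L)).le
    rw [← hm0] at this
    linarith
  set B : ℝ := C' * Real.exp ((1 - γ * δ / 2) * L) with hB
  have hB0 : 0 ≤ B := by positivity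
  set Tv : V → Finset (U → V) := fun v => Ψ.filter (fun ψ => G.Adj v (own ψ)) with hTv
  have hTvc : ∀ v, ((Tv v).card : ℝ) ≤ D * (C0 * Real.exp ((k - γ) * L)) := by
    intro v
    have hsub : Tv v ⊆ (G.neighborFinset v).biUnion (fun y => Ψ.filter (fun ψ => own ψ = y)) := by
      intro ψ hψ
      rw [hTv, Finset.mem_filter] at hψ
      rw [Finset.mem_biUnion]
      exact ⟨own ψ, by rw [SimpleGraph.mem_neighborFinset]; exact hψ.2,
        Finset.mem_filter.2 ⟨hψ.1, rfl⟩⟩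
    have h1 : (Tv v).card ≤ ∑ y ∈ G.neighborFinset v, (Ψ.filter (fun ψ => own ψ = y)).card :=
      (Finset.card_le_card hsub).trans Finset.card_biUnion_le
    have h2 : ((Tv v).card : ℝ) ≤
        ∑ y ∈ G.neighborFinset v, ((Ψ.filter (fun ψ => own ψ = y)).card : ℝ) := by
      exact_mod_cast h1
    refine h2.trans ((Finset.sum_le_sum (fun y _ => hM y)).trans ?_)
    rw [Finset.sum_const, nsmul_eq_mul]
    refine mul_le_mul_of_nonneg_right ?_ (by positivity)
    rw [SimpleGraph.card_neighborFinset_eq_degree]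
    exact_mod_cast hdeg v
  have hBv : ∀ v, ((Tv v).card : ℝ) / (K : ℝ) ^ k +
      2 ^ (k + 1) * (((p * (k + 1) : ℕ) : ℝ) + 1) ^ (k + 1) * ((D : ℝ) / K) ^ k ≤ B := by
    intro v
    have h1 := hTvc v
    have h2 : ((Tv v).card : ℝ) / (K : ℝ) ^ k ≤ C0 * Real.exp ((1 - γ * δ / 2) * L) := by
      rw [div_le_iff₀ (by positivity)]
      refine h1.trans ?_
      have h3 : Real.exp ((k - k * θ) * L) ≤ (K : ℝ) ^ k := by
        calc Real.exp ((k - k * θ) * L) = (Real.exp ((1 - θ) * L)) ^ k := by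
              rw [← Real.exp_nat_mul]; congr 1; ring
          _ ≤ (K : ℝ) ^ k := pow_le_pow_left₀ (Real.exp_pos _).le hKl k
      calc (D : ℝ) * (C0 * Real.exp ((k - γ) * L)) =
          C0 * Real.exp ((1 - γ * δ / 2) * L) * Real.exp ((k - k * θ) * L) := by
            rw [hDexp, hθk, mul_comm (Real.exp L), mul_assoc, mul_assoc, ← Real.exp_add,
              ← Real.exp_add]
            congr 2
            ring
        _ ≤ C0 * Real.exp ((1 - γ * δ / 2) * L) * (K : ℝ) ^ k :=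
            mul_le_mul_of_nonneg_left h3 (by positivity)
    have h4 : ((D : ℝ) / K) ^ k ≤ Real.exp ((1 - γ * δ / 2) * L) := by
      calc ((D : ℝ) / K) ^ k ≤ (Real.exp (θ * L)) ^ k :=
            pow_le_pow_left₀ (by positivity) hDK1 k
        _ = Real.exp (k * θ * L) := by
            rw [← Real.exp_nat_mul]; congr 1; ring
        _ ≤ Real.exp ((1 - γ * δ / 2) * L) := by
            refine Real.exp_le_exp.2 (mul_le_mul_of_nonneg_right ?_ hL0.le)
            rw [hθk]; linarith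
    rw [hB, hC', add_mul]
    refine add_le_add h2 ?_
    exact mul_le_mul_of_nonneg_left h4 (by positivity)
  -- the local lemma condition
  have hBm : B / m0 ≤ C' * Real.exp (-(γ * δ / 4 * L)) := by
    rw [div_le_iff₀ hm0pos, hB]
    have h2 : Real.exp ((1 - γ * δ / 2) * L) =
        Real.exp (-(γ * δ / 4 * L)) * Real.exp ((1 - γ * δ / 4) * L) := by
      rw [← Real.exp_add]; congr 1; ring
    calc C' * Real.exp ((1 - γ * δ / 2) * L)
        = C' * Real.exp (-(γ * δ / 4 * L)) * Real.exp ((1 - γ * δ / 4) * L) := by rw [h2]; ring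
      _ ≤ C' * Real.exp (-(γ * δ / 4 * L)) * m0 :=
          mul_le_mul_of_nonneg_left hm0l (mul_nonneg hC'0.le (Real.exp_pos _).le)
  have hDp : ((D : ℝ) + 1) ^ (2 * (h + 1)) ≤
      2 ^ (2 * (h + 1)) * Real.exp ((2 * (h + 1) : ℝ) * L) := by
    calc ((D : ℝ) + 1) ^ (2 * (h + 1)) ≤ (2 * D) ^ (2 * (h + 1)) :=
          pow_le_pow_left₀ (by linarith) (by linarith) _
      _ = 2 ^ (2 * (h + 1)) * Real.exp ((2 * (h + 1) : ℝ) * L) := by
          rw [mul_pow, hDexp, ← Real.exp_nat_mul]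
          push_cast
          rfl
  have hDp0 : 0 ≤ ((D : ℝ) + 1) ^ (2 * (h + 1)) := by positivity
  have hT1 : (B / m0) ^ p * ((D : ℝ) + 1) ^ (2 * (h + 1)) ≤ 1 / 8 := by
    have h1 : (B / m0) ^ p ≤ C' ^ p * Real.exp (-((2 * (h + 1) + 1 : ℝ) * L)) := by
      calc (B / m0) ^ p ≤ (C' * Real.exp (-(γ * δ / 4 * L))) ^ p :=
            pow_le_pow_left₀ (by positivity) hBm p
        _ = C' ^ p * Real.exp (-(p * (γ * δ / 4) * L)) := by
            rw [mul_pow, ← Real.exp_nat_mul]; congr 2; ring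
        _ ≤ C' ^ p * Real.exp (-((2 * (h + 1) + 1 : ℝ) * L)) := by
            refine mul_le_mul_of_nonneg_left (Real.exp_le_exp.2 ?_) (by positivity)
            have := mul_le_mul_of_nonneg_right hpδ hL0.le
            linarith
    calc (B / m0) ^ p * ((D : ℝ) + 1) ^ (2 * (h + 1))
        ≤ (C' ^ p * Real.exp (-((2 * (h + 1) + 1 : ℝ) * L))) *
          (2 ^ (2 * (h + 1)) * Real.exp ((2 * (h + 1) : ℝ) * L)) :=
          mul_le_mul h1 hDp hDp0 (by positivity)
      _ = (C' ^ p * 2 ^ (2 * (h + 1))) * (Real.exp (-((2 * (h + 1) + 1 : ℝ) * L)) *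
            Real.exp ((2 * (h + 1) : ℝ) * L)) := by ring
      _ = (C' ^ p * 2 ^ (2 * (h + 1))) * Real.exp (-L) := by
          rw [← Real.exp_add]; congr 2; ring
      _ ≤ (C' ^ p * 2 ^ (2 * (h + 1))) * (1 / (8 * (C' ^ p * 2 ^ (2 * (h + 1))))) :=
          mul_le_mul_of_nonneg_left e3 (by positivity)
      _ = 1 / 8 := by field_simp
  have hT2 : (K : ℝ) * Real.exp (-(δ ^ 2 * D / (3 * K))) * ((D : ℝ) + 1) ^ (2 * (h + 1)) ≤
      1 / 8 := by
    have h1 : Real.exp (-(δ ^ 2 * D / (3 * K))) ≤ Real.exp (-((2 * (h + 1) + 2 : ℝ) * L)) := by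
      apply Real.exp_le_exp.2
      have h2 : δ ^ 2 * D / (3 * K) = 2 * a * ((D : ℝ) / K) := by
        rw [ha]; field_simp; ring
      have h3 : (θ * L) ^ 2 / 2 ≤ Real.exp (θ * L) := by
        have := Real.quadratic_le_exp_of_nonneg (x := θ * L) (by positivity)
        have h4 : 0 ≤ θ * L := by positivity
        linarith
      have h4 : a * Real.exp (θ * L) ≤ δ ^ 2 * D / (3 * K) := by
        rw [h2]
        have := mul_le_mul_of_nonneg_left hDK2 (show 0 ≤ 2 * a by linarith)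
        linarith
      have h5 : (2 * (h + 1) + 2 : ℝ) * L ≤ a * Real.exp (θ * L) := by
        have h6 := mul_le_mul_of_nonneg_right e4 hL0.le
        have h7 := mul_le_mul_of_nonneg_left h3 ha0.le
        have h8 : a * ((θ * L) ^ 2 / 2) = a * θ ^ 2 / 2 * L * L := by ring
        linarith
      linarith
    have h2 : (K : ℝ) ≤ 2 * Real.exp L := by
      rw [← hDexp]
      have : (K : ℝ) ≤ D := by exact_mod_cast hKD
      linarith
    calc (K : ℝ) * Real.exp (-(δ ^ 2 * D / (3 * K))) * ((D : ℝ) + 1) ^ (2 * (h + 1))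
        ≤ (2 * Real.exp L) * Real.exp (-((2 * (h + 1) + 2 : ℝ) * L)) *
          (2 ^ (2 * (h + 1)) * Real.exp ((2 * (h + 1) : ℝ) * L)) := by
          refine mul_le_mul (mul_le_mul h2 h1 (Real.exp_pos _).le (by positivity)) hDp hDp0 ?_
          positivity
      _ = (2 * 2 ^ (2 * (h + 1))) * (Real.exp L * Real.exp (-((2 * (h + 1) + 2 : ℝ) * L)) *
            Real.exp ((2 * (h + 1) : ℝ) * L)) := by ring
      _ = (2 * 2 ^ (2 * (h + 1))) * Real.exp (-L) := by
          rw [← Real.exp_add, ← Real.exp_add]; congr 2; ring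
      _ ≤ (2 * 2 ^ (2 * (h + 1))) * (1 / (8 * (2 * 2 ^ (2 * (h + 1))))) :=
          mul_le_mul_of_nonneg_left e5 (by positivity)
      _ = 1 / 8 := by field_simp
  have hLLL : 4 * (K * Real.exp (-(δ ^ 2 * D / (3 * K))) + (B / m0) ^ p) *
      ((D + 1) ^ (2 * (h + 1)) : ℕ) ≤ 1 := by
    push_cast
    calc 4 * (K * Real.exp (-(δ ^ 2 * D / (3 * K))) + (B / m0) ^ p) *
          ((D : ℝ) + 1) ^ (2 * (h + 1)) =
        4 * (K * Real.exp (-(δ ^ 2 * D / (3 * K))) * ((D : ℝ) + 1) ^ (2 * (h + 1)) +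
          (B / m0) ^ p * ((D : ℝ) + 1) ^ (2 * (h + 1))) := by ring
      _ ≤ 1 := by linarith
  obtain ⟨t, ht1, ht2, ht3⟩ := mono_types_own G p h m0 hK1 hKD hdeg H0 hH0 hU Ψ hΨ
    (fun ψ hψ a b => near_map (hΨ ψ hψ).2 (hh a b)) Tv
    (fun v ψ hψ => by
      rw [hTv, Finset.mem_filter] at hψ
      obtain ⟨z, hz⟩ := hown ψ hψ.1
      exact ⟨hψ.1, z, by rw [hz]; exact hψ.2⟩) B hB0 hBv hm01 δ hδ0.le (by linarith) hLLL
  -- bad vertices
  set bad : V → Prop := fun u => ∃ ψ ∈ Ψ, (∀ a b, t (ψ a) = t (ψ b)) ∧ own ψ = u with hbad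
  -- colour the parts
  have hpart1 : ∃ n1 : ℕ, (n1 : ℝ) ≤ (c + δ) * ((1 + δ) * D / K / Real.log ((1 + δ) * D / K)) ∧
      ∀ y < K, ColOn G {v | v ∈ (Set.univ : Set V) ∧ t v = y ∧ ¬ bad v} n1 := by
    have hex : ∀ y, ∃ n : ℕ, (n : ℝ) ≤ (c + δ) * ((1 + δ) * D / K / Real.log ((1 + δ) * D / K)) ∧
        ColOn G {v | v ∈ (Set.univ : Set V) ∧ t v = y ∧ ¬ bad v} n := by
      intro y
      refine hy₀ ((1 + δ) * D / K) ?_ V G _ ?_ ?_
      · have h1 : y₀ ≤ (D : ℝ) / K := by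
          have := le_max_left y₀ 2
          linarith
        have h2 : (1 + δ) * D / K = (1 + δ) * ((D : ℝ) / K) := by ring
        rw [h2]
        have h3 : 0 ≤ δ * ((D : ℝ) / K) := by positivity
        linarith
      · intro T hT hTC
        obtain ⟨ψ, hψ, hψT⟩ := hhit T hTC
        obtain ⟨z, hz⟩ := hown ψ hψ
        have h1 : ∀ a, t (ψ a) = y := fun a => (hT (hψT ⟨a, rfl⟩)).2.1
        exact (hT (hψT ⟨z, rfl⟩)).2.2 ⟨ψ, hψ, fun a b => (h1 a).trans (h1 b).symm, hz.symm⟩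
      · intro v _
        have a2 : ((⌊(1 + δ) * D / K⌋₊ : ℕ) : ℝ) ≤ (1 + δ) * D / K :=
          Nat.floor_le (by positivity)
        have a1 := filt_le (G.neighborFinset v) {v | v ∈ (Set.univ : Set V) ∧ t v = y ∧ ¬ bad v}
          (fun u => t u = y) (fun u _ hu => hu.2.1)
        exact (Nat.cast_le (α := ℝ).2 (a1.trans (ht2 v y))).trans a2
    choose nn hnn1 hnn2 using hex
    refine ⟨(Finset.range K).sup nn, ?_, ?_⟩
    · obtain ⟨y, -, hy⟩ := Finset.exists_mem_eq_sup (Finset.range K)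
        ⟨0, Finset.mem_range.2 hK1⟩ nn
      rw [hy]; exact hnn1 y
    · intro y hy
      obtain ⟨f, hf1, hf2⟩ := hnn2 y
      exact ⟨f, fun v hv => lt_of_lt_of_le (hf1 v hv)
        (Finset.le_sup (f := nn) (Finset.mem_range.2 hy)), hf2⟩
  obtain ⟨n1, hn1, hc1⟩ := hpart1
  -- colour the bad vertices
  have hbadnbr : ∀ v, ((G.neighborFinset v).filter (fun u => bad u)).card ≤ m0 := by
    intro v
    have hsub : (G.neighborFinset v).filter (fun u => bad u) ⊆
        ((Tv v).filter (fun ψ => ∀ a b, t (ψ a) = t (ψ b))).image own := by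
      intro u hu
      rw [Finset.mem_filter, SimpleGraph.mem_neighborFinset] at hu
      obtain ⟨huv, ψ, hψ, hm, hzu⟩ := hu
      rw [Finset.mem_image]
      refine ⟨ψ, ?_, hzu⟩
      rw [Finset.mem_filter, hTv, Finset.mem_filter]
      exact ⟨⟨hψ, by rw [hzu]; exact huv⟩, hm⟩
    exact (Finset.card_le_card hsub).trans (Finset.card_image_le.trans (ht3 v).le)
  obtain ⟨γ', hγ1', hγ2'⟩ := degen (fun v => (G.neighborFinset v).filter (fun u => bad u)) m0
    hbadnbr (fun v => by simp) _ univ rfl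
  refine ⟨K * n1 + (2 * m0 + 1) * 1, ?_, assemble G Set.univ t γ' K (2 * m0 + 1) n1 1
    bad ht1 hγ1' hc1 ?_⟩
  · push_cast
    -- main term
    have hY : (0 : ℝ) < (1 + δ) * D / K := by positivity
    have hY2 : Real.exp (θ * L) / 2 ≤ (1 + δ) * D / K := by
      have h2 : (1 + δ) * D / K = (D : ℝ) / K + δ * ((D : ℝ) / K) := by ring
      have h3 : 0 ≤ δ * ((D : ℝ) / K) := by positivity
      linarith
    have hlogY : (γ / k - 2 * η) * L ≤ Real.log ((1 + δ) * D / K) := by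
      have h1 : Real.log (Real.exp (θ * L) / 2) ≤ Real.log ((1 + δ) * D / K) :=
        Real.log_le_log (by positivity) hY2
      rw [Real.log_div (Real.exp_pos _).ne' two_ne_zero, Real.log_exp] at h1
      have h2 : θ * L - η * L = (γ / k - 2 * η) * L := by rw [hθ]; ring
      linarith
    have hkη : (k : ℝ) * (γ / k - 2 * η) = γ * (1 - δ) := by
      rw [mul_sub, hkk]; linarith
    have hpos1 : 0 < γ / (k : ℝ) - 2 * η := by
      have : 0 < (k : ℝ) * (γ / k - 2 * η) := by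
        rw [hkη]
        exact mul_pos hγ0 (by linarith)
      exact (pos_iff_pos_of_mul_pos this).1 hkpos
    have hinv : 1 / (γ / (k : ℝ) - 2 * η) ≤ k / γ * (1 + 2 * δ) := by
      rw [div_le_iff₀ hpos1]
      have : k / γ * (1 + 2 * δ) * (γ / (k : ℝ) - 2 * η) =
          (1 + 2 * δ) * (k * (γ / k - 2 * η)) / γ := by
        field_simp
      rw [this, hkη]
      have h5 : (1 + 2 * δ) * (γ * (1 - δ)) / γ = (1 + 2 * δ) * (1 - δ) := by
        field_simp
      rw [h5]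
      have := mul_nonneg hδ0.le (show (0 : ℝ) ≤ 1 - 2 * δ by linarith)
      linarith
    have hDL : 0 ≤ (D : ℝ) / L := by positivity
    have hkγ : 0 < (k : ℝ) / γ := by positivity
    have f1 : (K : ℝ) * n1 ≤ (k / γ * c + ε / 2) * ((D : ℝ) / L) := by
      have g1 : (1 + δ) * D / K / Real.log ((1 + δ) * D / K) ≤
          (1 + δ) * D / K / ((γ / k - 2 * η) * L) :=
        div_le_div_of_nonneg_left hY.le (by positivity) hlogY
      calc (K : ℝ) * n1 ≤ K * ((c + δ) * ((1 + δ) * D / K / Real.log ((1 + δ) * D / K))) :=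
            mul_le_mul_of_nonneg_left hn1 hKpos.le
        _ ≤ K * ((c + δ) * ((1 + δ) * D / K / ((γ / k - 2 * η) * L))) := by gcongr
        _ = (c + δ) * (1 + δ) * (1 / (γ / k - 2 * η)) * ((D : ℝ) / L) := by
            have hx : γ / (k : ℝ) - 2 * η ≠ 0 := hpos1.ne'
            generalize γ / (k : ℝ) - 2 * η = x at hx
            field_simp
        _ ≤ (c + δ) * (1 + δ) * (k / γ * (1 + 2 * δ)) * ((D : ℝ) / L) := by gcongr
        _ ≤ (k / γ * c + ε / 2) * ((D : ℝ) / L) := by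
            refine mul_le_mul_of_nonneg_right ?_ hDL
            have h0 := mul_nonneg hδ0.le (show (0 : ℝ) ≤ 1 - δ by linarith)
            have h1 : (1 + δ) * (1 + 2 * δ) ≤ 1 + 5 * δ := by linarith
            have h2 : (c + δ) * (1 + δ) * (k / γ * (1 + 2 * δ)) =
                k / γ * ((c + δ) * ((1 + δ) * (1 + 2 * δ))) := by ring
            have h3 : (c + δ) * ((1 + δ) * (1 + 2 * δ)) ≤ (c + δ) * (1 + 5 * δ) :=
              mul_le_mul_of_nonneg_left h1 (by linarith)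
            have h4 : (c + δ) * (1 + 5 * δ) ≤ c + δ * (5 * c + 6) := by
              have h7 := mul_nonneg hδ0.le (show (0 : ℝ) ≤ 1 - 4 * δ by linarith)
              have h8 := mul_nonneg hδ0.le (show (0 : ℝ) ≤ 1 - δ by linarith)
              linarith
            have h5 : k / γ * (δ * (5 * c + 6)) ≤ ε / 2 := by
              rw [le_div_iff₀ (by positivity)] at hδε
              rw [div_mul_eq_mul_div, div_le_iff₀ hγ0]
              linarith
            rw [h2]
            have h6 := mul_le_mul_of_nonneg_left (h3.trans h4) hkγ.le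
            rw [mul_add] at h6
            linarith
    have f2 : 2 * (m0 : ℝ) + 1 ≤ (ε / 2) * ((D : ℝ) / L) := by
      have g1 : 2 * (m0 : ℝ) + 1 ≤ 5 * Real.exp ((1 - γ * δ / 4) * L) := by
        linarith
      have g2 : Real.exp ((1 - γ * δ / 4) * L) = D * Real.exp (-(γ * δ / 4 * L)) := by
        rw [hDexp, ← Real.exp_add]; congr 1; ring
      have g3 : Real.exp (-(γ * δ / 4 * L)) * L ≤ ε / (2 * 5) := by
        refine le_trans ?_ e6
        rw [pow_one]
        exact mul_le_mul_of_nonneg_left (by linarith) (Real.exp_pos _).le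
      refine g1.trans ?_
      rw [g2, mul_div_assoc', le_div_iff₀ hL0]
      have g4 := mul_le_mul_of_nonneg_left g3 (show (0 : ℝ) ≤ D by linarith)
      linarith
    have f3 : (k / γ * c + ε / 2) * ((D : ℝ) / L) + (ε / 2) * ((D : ℝ) / L) =
        (k / γ * c + ε) * ((D : ℝ) / L) := by ring
    linarith
  · intro l _
    refine ⟨fun _ => 0, fun v _ => one_pos, ?_⟩
    intro u hu v hv huv
    exfalso
    exact hγ2' u (Finset.mem_univ _) v (Finset.mem_univ _) (by
      rw [Finset.mem_filter, SimpleGraph.mem_neighborFinset]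
      exact ⟨huv, hv.2.2⟩) (hu.2.1.trans hv.2.1.symm)

end Pool.Agent.Helper54.AK
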