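import Mathlib

set_option autoImplicit false

/-!
# Owners of configurations
-/

namespace Pool.Agent.Helper54.AK

open Finset Classical

set_option linter.unusedSectionVars false

/-- If every set `S` contains at most `M |S|` configurations, then the configurations can be
assigned to vertices of them such that no vertex gets more than `|U| M` of them. -/
theorem owners {U V : Type} [Fintype U] [Nonempty U] [Fintype V] (Ψ : Finset (U → V)) (M : ℝ)
    (hM0 : 0 ≤ M)
    (hM : ∀ S : Finset V, ((Ψ.filter (fun ψ => ∀ z, ψ z ∈ S)).card : ℝ) ≤ S.card * M) :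
    ∀ (n : ℕ) (S : Finset V), S.card = n → ∃ own : (U → V) → V,
      (∀ ψ ∈ Ψ, (∀ z, ψ z ∈ S) → ∃ z, ψ z = own ψ) ∧
      ∀ y, ((Ψ.filter (fun ψ => (∀ z, ψ z ∈ S) ∧ own ψ = y)).card : ℝ) ≤ Fintype.card U * M := by
  intro n
  induction n with
  | zero =>
    intro S hS
    rw [Finset.card_eq_zero] at hS
    subst hS
    obtain ⟨u⟩ := ‹Nonempty U›
    refine ⟨fun ψ => ψ u, fun ψ _ _ => ⟨u, rfl⟩, ?_⟩
    intro y
    have : Ψ.filter (fun ψ => (∀ z, ψ z ∈ (∅ : Finset V)) ∧ ψ u = y) = ∅ := by
      apply Finset.filter_eq_empty_iff.2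
      intro ψ _ h
      exact absurd (h.1 u) (Finset.notMem_empty _)
    rw [this]
    simp only [Finset.card_empty, Nat.cast_zero]
    positivity
  | succ n ih =>
    intro S hS
    have h1 : ∃ v ∈ S, ((Ψ.filter (fun ψ => (∀ z, ψ z ∈ S) ∧ ∃ z, ψ z = v)).card : ℝ) ≤
        Fintype.card U * M := by
      by_contra hcon
      push Not at hcon
      have hSne : S.Nonempty := by rw [← Finset.card_pos]; omega
      have h2 : (S.card : ℝ) * (Fintype.card U * M) <
          ∑ v ∈ S, ((Ψ.filter (fun ψ => (∀ z, ψ z ∈ S) ∧ ∃ z, ψ z = v)).card : ℝ) := by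
        rw [← nsmul_eq_mul, ← Finset.sum_const]
        exact Finset.sum_lt_sum_of_nonempty hSne (fun v hv => hcon v hv)
      have h3 : ∑ v ∈ S, (Ψ.filter (fun ψ => (∀ z, ψ z ∈ S) ∧ ∃ z, ψ z = v)).card ≤
          (Ψ.filter (fun ψ => ∀ z, ψ z ∈ S)).card * Fintype.card U := by
        have h4 : ∀ v ∈ S, (Ψ.filter (fun ψ => (∀ z, ψ z ∈ S) ∧ ∃ z, ψ z = v)).card =
            ∑ ψ ∈ Ψ.filter (fun ψ => ∀ z, ψ z ∈ S), (if ∃ z, ψ z = v then 1 else 0) := by
          intro v _
          rw [← Finset.card_filter, Finset.filter_filter]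
        rw [Finset.sum_congr rfl h4, Finset.sum_comm]
        refine (Finset.sum_le_card_nsmul _ _ (Fintype.card U) ?_).trans (by rw [smul_eq_mul])
        intro ψ _
        rw [← Finset.card_filter]
        refine (Finset.card_le_card (t := univ.image ψ) ?_).trans
          (Finset.card_image_le.trans (by rw [Finset.card_univ]))
        intro v hv
        obtain ⟨z, hz⟩ := (Finset.mem_filter.1 hv).2
        exact Finset.mem_image.2 ⟨z, Finset.mem_univ _, hz⟩
      have h5 : ∑ v ∈ S, ((Ψ.filter (fun ψ => (∀ z, ψ z ∈ S) ∧ ∃ z, ψ z = v)).card : ℝ) ≤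
          ((Ψ.filter (fun ψ => ∀ z, ψ z ∈ S)).card : ℝ) * Fintype.card U := by
        exact_mod_cast h3
      have h6 := mul_le_mul_of_nonneg_right (hM S) (show (0 : ℝ) ≤ Fintype.card U by positivity)
      have h7 : (S.card : ℝ) * M * Fintype.card U = (S.card : ℝ) * (Fintype.card U * M) := by ring
      linarith
    obtain ⟨v, hv, hvM⟩ := h1
    obtain ⟨own, ho1, ho2⟩ := ih (S.erase v) (by rw [Finset.card_erase_of_mem hv, hS]; rfl)
    refine ⟨fun ψ => if ∃ z, ψ z = v then v else own ψ, ?_, ?_⟩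
    · intro ψ hψ hψS
      by_cases h : ∃ z, ψ z = v
      · obtain ⟨z, hz⟩ := h
        refine ⟨z, ?_⟩
        simp only
        rw [if_pos ⟨z, hz⟩]
        exact hz
      · simp only
        rw [if_neg h]
        refine ho1 ψ hψ (fun z => Finset.mem_erase.2 ⟨fun e => h ⟨z, e⟩, hψS z⟩)
    · intro y
      by_cases hy : y = v
      · subst hy
        refine le_trans ?_ hvM
        refine Nat.cast_le.2 (Finset.card_le_card ?_)
        intro ψ hψ
        rw [Finset.mem_filter] at hψ ⊢
        refine ⟨hψ.1, hψ.2.1, ?_⟩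
        by_contra h
        have h8 := hψ.2.2
        simp only at h8
        rw [if_neg h] at h8
        obtain ⟨z, hz⟩ := ho1 ψ hψ.1
          (fun z => Finset.mem_erase.2 ⟨fun e => h ⟨z, e⟩, hψ.2.1 z⟩)
        exact h ⟨z, hz.trans h8⟩
      · refine le_trans ?_ (ho2 y)
        refine Nat.cast_le.2 (Finset.card_le_card ?_)
        intro ψ hψ
        rw [Finset.mem_filter] at hψ ⊢
        have h8 := hψ.2.2
        simp only at h8
        by_cases h : ∃ z, ψ z = v
        · rw [if_pos h] at h8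
          exact absurd h8.symm hy
        · rw [if_neg h] at h8
          exact ⟨hψ.1, fun z => Finset.mem_erase.2 ⟨fun e => h ⟨z, e⟩, hψ.2.1 z⟩, h8⟩

end Pool.Agent.Helper54.AK
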