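import Mathlib
import Pool.Agent.Helper54.AK.Blow

set_option autoImplicit false

/-!
# Many homomorphisms of a partial blow-up give rich families of sets
-/

namespace Pool.Agent.Helper54.AK

open Finset Classical Pool.Agent.TH855

set_option linter.unusedSectionVars false

section Chain

variable {U V : Type} [Fintype U] [Fintype V] (H : SimpleGraph U) (G : SimpleGraph V) (m : ℕ)

/-- the exponent -/
noncomputable def Wt (U : Type) [Fintype U] (m : ℕ) (J : Finset U) : ℕ :=
  J.card * (m + 1) + (Fintype.card U - J.card) - 1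

theorem chain_step (h2 : TwoConn H) (D : ℕ) (hD1 : 1 ≤ D)
    (hD : ∀ v, ∀ N : Finset V, (∀ w ∈ N, G.Adj v w) → N.card ≤ D) (z : U) (J : Finset U)
    (hz : z ∉ J) (hV : 0 < Fintype.card V) (E : ℝ) (hE : 0 ≤ E)
    (h : (Fintype.card V : ℝ) * (D : ℝ) ^ Wt U m J * E ≤ ((A H G m J).card : ℝ)) :
    (Fintype.card V : ℝ) * (D : ℝ) ^ Wt U m (insert z J) * E ^ (m + 1) ≤
      ((A H G m (insert z J)).card : ℝ) := by
  have hJc : J.card + 1 ≤ Fintype.card U := by
    rw [← Finset.card_insert_of_notMem hz]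
    exact Finset.card_le_univ _
  have hU3 := h2.1
  set N : ℝ := (Fintype.card V : ℝ) with hN
  have hN0 : 0 < N := by rw [hN]; exact_mod_cast hV
  have hDr : (1 : ℝ) ≤ D := by exact_mod_cast hD1
  set w := Wt U m J with hw
  have hw1 : 1 ≤ w := by
    rw [hw, Wt]
    have : J.card ≤ J.card * (m + 1) := Nat.le_mul_of_pos_right _ (by omega)
    omega
  have hwR : J.card * (m + 1) + (Fintype.card U - 1 - J.card) - 1 = w - 1 := by
    rw [hw, Wt]; omega
  have hwI : Wt U m (insert z J) = w + m := by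
    rw [hw, Wt, Wt, Finset.card_insert_of_notMem hz]
    have h3 : (J.card + 1) * (m + 1) = J.card * (m + 1) + (m + 1) := by ring
    rw [h3]
    have : J.card ≤ J.card * (m + 1) := Nat.le_mul_of_pos_right _ (by omega)
    omega
  have hR : ((Rs H G m z J).card : ℝ) ≤ (D : ℝ) ^ (w - 1) * N := by
    have h5 := card_Rs H G m h2 D hD1 hD z J hz
    rw [hwR] at h5
    have h6 := (Nat.cast_le (α := ℝ)).2 h5
    push_cast at h6
    exact h6
  have hs := step H G m z J hz
  have h1 : (N * (D : ℝ) ^ w * E) ^ (m + 1) ≤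
      ((D : ℝ) ^ (w - 1) * N) ^ m * ((A H G m (insert z J)).card : ℝ) := by
    refine (pow_le_pow_left₀ (by positivity) h _).trans (hs.trans ?_)
    exact mul_le_mul_of_nonneg_right (pow_le_pow_left₀ (by positivity) hR _) (by positivity)
  have hpos : 0 < ((D : ℝ) ^ (w - 1) * N) ^ m := by positivity
  have h4 : (N * (D : ℝ) ^ w * E) ^ (m + 1) =
      ((D : ℝ) ^ (w - 1) * N) ^ m * (N * (D : ℝ) ^ (w + m) * E ^ (m + 1)) := by
    obtain ⟨k, hk⟩ : ∃ k, w = k + 1 := ⟨w - 1, by omega⟩
    rw [hk, Nat.add_sub_cancel]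
    ring
  rw [h4] at h1
  rw [hwI]
  exact le_of_mul_le_mul_left h1 hpos

theorem chain (h2 : TwoConn H) (D : ℕ) (hD1 : 1 ≤ D)
    (hD : ∀ v, ∀ N : Finset V, (∀ w ∈ N, G.Adj v w) → N.card ≤ D) (hV : 0 < Fintype.card V)
    (J0 : Finset U) (E : ℝ) (hE : 0 ≤ E)
    (h : (Fintype.card V : ℝ) * (D : ℝ) ^ Wt U m J0 * E ≤ ((A H G m J0).card : ℝ)) :
    ∀ J : Finset U, Disjoint J0 J →
      (Fintype.card V : ℝ) * (D : ℝ) ^ Wt U m (J0 ∪ J) * E ^ ((m + 1) ^ J.card) ≤
        ((A H G m (J0 ∪ J)).card : ℝ) := by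
  intro J
  induction J using Finset.induction_on with
  | empty => intro _; simpa using h
  | insert z J hz ih =>
    intro hdis
    rw [Finset.disjoint_insert_right] at hdis
    have h1 := ih hdis.2
    have hz' : z ∉ J0 ∪ J := by
      rw [Finset.mem_union, not_or]; exact ⟨hdis.1, hz⟩
    have h3 := chain_step H G m h2 D hD1 hD z (J0 ∪ J) hz' hV _ (by positivity) h1
    rw [Finset.union_insert, Finset.card_insert_of_notMem hz, pow_succ, pow_mul]
    exact h3

end Chain

section Good

variable {U V : Type} [Fintype U] [Fintype V] (H : SimpleGraph U) (G : SimpleGraph V) (m : ℕ)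

/-- the common neighbours of the classes adjacent to `i` -/
noncomputable def CN (Φ : U → Fin (m + 1) → V) (i : U) : Finset V :=
  univ.filter (fun v => ∀ u, H.Adj i u → ∀ a, G.Adj v (Φ u a))

/-- few vertices of the classes adjacent to `i` have many common neighbours in the class `i` -/
def Good (r h : ℕ) (Φ : U → Fin (m + 1) → V) (i : U) : Prop :=
  ∀ S : Fin r → V, (∀ l, ∃ u, H.Adj i u ∧ S l ∈ CN H G m Φ u) →
    h ≤ ((CN H G m Φ i).filter (fun v => ∀ l, G.Adj v (S l))).card

variable {H G m}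

theorem mem_CN {Φ : U → Fin (m + 1) → V} {i : U} {v : V} :
    v ∈ CN H G m Φ i ↔ ∀ u, H.Adj i u → ∀ a, G.Adj v (Φ u a) := by
  rw [CN, Finset.mem_filter]; simp

theorem self_CN {Φ : U → Fin (m + 1) → V} (hΦ : IsB H G m Φ) (i : U) (a : Fin (m + 1)) :
    Φ i a ∈ CN H G m Φ i := mem_CN.2 (fun u hu b => hΦ i u hu a b)

variable (H G m)

theorem bad_card (h2 : TwoConn H) (D : ℕ) (hD1 : 1 ≤ D)
    (hD : ∀ v, ∀ N : Finset V, (∀ w ∈ N, G.Adj v w) → N.card ≤ D) (r h : ℕ) (i : U) :
    ((A H G m univ).filter (fun Φ => ¬ Good H G m r h Φ i)).card ≤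
      (D ^ ((Fintype.card U - 1) * (m + 1) - 1) * Fintype.card V) *
        ((Fintype.card U * D) ^ r * h ^ (m + 1)) := by
  set T : ({u // u ≠ i} → Fin (m + 1) → V) → Finset V :=
    fun g => univ.biUnion (fun u => univ.filter (fun v => G.Adj (g u 0) v)) with hT
  have hTc : ∀ g, (T g).card ≤ Fintype.card U * D := by
    intro g
    refine (Finset.card_biUnion_le_card_mul _ _ D ?_).trans ?_
    · intro u _
      exact hD (g u 0) _ (fun w hw => (Finset.mem_filter.1 hw).2)
    · refine Nat.mul_le_mul_right _ ?_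
      rw [Finset.card_univ]
      exact Fintype.card_subtype_le _
  set Wf : ({u // u ≠ i} → Fin (m + 1) → V) → (Fin r → V) → Finset V :=
    fun g S => (Nb H G m i g).filter (fun v => ∀ l, G.Adj v (S l)) with hWf
  set X : ({u // u ≠ i} → Fin (m + 1) → V) → (Fin r → V) → Finset (U → Fin (m + 1) → V) :=
    fun g S => if (Wf g S).card < h then
      univ.filter (fun Φ => (fun u : {u // u ≠ i} => Φ u.1) = g ∧ ∀ a, Φ i a ∈ Wf g S) else ∅
    with hX
  have hXc : ∀ g S, (X g S).card ≤ h ^ (m + 1) := by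
    intro g S
    simp only [hX]
    by_cases hlt : (Wf g S).card < h
    · rw [if_pos hlt]
      have h3 : (Fintype.piFinset (fun _ : Fin (m + 1) => Wf g S)).card ≤ h ^ (m + 1) := by
        rw [Fintype.card_piFinset, Finset.prod_const, Finset.card_univ, Fintype.card_fin]
        exact Nat.pow_le_pow_left hlt.le _
      refine le_trans (Finset.card_le_card_of_injOn (fun Φ => Φ i) ?_ ?_) h3
      · intro Φ hΦ
        rw [Finset.mem_coe, Finset.mem_filter] at hΦ
        rw [Finset.mem_coe, Fintype.mem_piFinset]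
        exact hΦ.2.2
      · intro Φ hΦ Φ' hΦ' h0
        rw [Finset.mem_coe, Finset.mem_filter] at hΦ hΦ'
        simp only at h0
        funext u
        by_cases hu : u = i
        · subst hu; exact h0
        · exact congrFun (hΦ.2.1.trans hΦ'.2.1.symm) ⟨u, hu⟩
    · rw [if_neg hlt]; simp
  have hsub : (A H G m univ).filter (fun Φ => ¬ Good H G m r h Φ i) ⊆
      (Rs H G m i (univ.erase i)).biUnion (fun g =>
        (Fintype.piFinset (fun _ : Fin r => T g)).biUnion (fun S => X g S)) := by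
    intro Φ hΦ
    rw [Finset.mem_filter] at hΦ
    obtain ⟨hΦ1, hΦ2⟩ := hΦ
    have hB : IsB H G m Φ := by
      rw [A, Finset.mem_filter] at hΦ1; exact hΦ1.2.1
    unfold Good at hΦ2
    push Not at hΦ2
    obtain ⟨S, hS1, hS2⟩ := hΦ2
    rw [Finset.mem_biUnion]
    refine ⟨fun u : {u // u ≠ i} => Φ u.1, ?_, ?_⟩
    · rw [Rs, Finset.mem_filter]
      refine ⟨Finset.mem_univ _, fun u u' huu a b => hB _ _ huu a b, ?_⟩
      intro u hu
      exact absurd (Finset.mem_erase.2 ⟨u.2, Finset.mem_univ _⟩) hu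
    · rw [Finset.mem_biUnion]
      refine ⟨S, ?_, ?_⟩
      · rw [Fintype.mem_piFinset]
        intro l
        obtain ⟨u, hu, hSu⟩ := hS1 l
        have hui : u ≠ i := fun e => hu.ne e.symm
        obtain ⟨j, hj, huj⟩ := h2.two i u hui
        rw [hT, Finset.mem_biUnion]
        refine ⟨⟨j, hj⟩, Finset.mem_univ _, ?_⟩
        rw [Finset.mem_filter]
        exact ⟨Finset.mem_univ _, (mem_CN.1 hSu j huj 0).symm⟩
      · have hWeq : Wf (fun u : {u // u ≠ i} => Φ u.1) S =
            (CN H G m Φ i).filter (fun v => ∀ l, G.Adj v (S l)) := by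
          ext v
          simp only [hWf, Nb, CN, Finset.mem_filter, Finset.mem_univ, true_and]
          refine and_congr_left (fun _ => ⟨fun h3 u hu a => ?_, fun h3 u hu a => h3 u.1 hu a⟩)
          exact h3 ⟨u, fun e => hu.ne e.symm⟩ hu a
        simp only [hX]
        rw [if_pos (by rw [hWeq]; exact hS2), Finset.mem_filter]
        refine ⟨Finset.mem_univ _, rfl, ?_⟩
        intro a
        rw [hWeq, Finset.mem_filter]
        refine ⟨self_CN hB i a, ?_⟩
        intro l
        obtain ⟨u, hu, hSu⟩ := hS1 l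
        exact (mem_CN.1 hSu i hu.symm a).symm
  refine (Finset.card_le_card hsub).trans ?_
  refine (Finset.card_biUnion_le_card_mul _ _ ((Fintype.card U * D) ^ r * h ^ (m + 1)) ?_).trans ?_
  · intro g _
    refine (Finset.card_biUnion_le_card_mul _ _ (h ^ (m + 1)) (fun S _ => hXc g S)).trans ?_
    refine Nat.mul_le_mul_right _ ?_
    rw [Fintype.card_piFinset, Finset.prod_const, Finset.card_univ, Fintype.card_fin]
    exact Nat.pow_le_pow_left (hTc g) _
  · refine Nat.mul_le_mul_right _ ?_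
    refine (card_Rs H G m h2 D hD1 hD i (univ.erase i) (Finset.notMem_erase _ _)).trans ?_
    rw [Finset.card_erase_of_mem (Finset.mem_univ _), Finset.card_univ, Nat.sub_self, Nat.add_zero]

theorem exists_good (h2 : TwoConn H) (D : ℕ) (hD1 : 1 ≤ D)
    (hD : ∀ v, ∀ N : Finset V, (∀ w ∈ N, G.Adj v w) → N.card ≤ D) (r h : ℕ)
    (hlt : Fintype.card U * ((D ^ ((Fintype.card U - 1) * (m + 1) - 1) * Fintype.card V) *
        ((Fintype.card U * D) ^ r * h ^ (m + 1))) < (A H G m univ).card) :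
    ∃ Φ, IsB H G m Φ ∧ ∀ i, Good H G m r h Φ i := by
  by_contra hcon
  push Not at hcon
  have hsub : A H G m univ ⊆ univ.biUnion
      (fun i => (A H G m univ).filter (fun Φ => ¬ Good H G m r h Φ i)) := by
    intro Φ hΦ
    have hB : IsB H G m Φ := by
      rw [A, Finset.mem_filter] at hΦ; exact hΦ.2.1
    obtain ⟨i, hi⟩ := hcon Φ hB
    rw [Finset.mem_biUnion]
    exact ⟨i, Finset.mem_univ _, Finset.mem_filter.2 ⟨hΦ, hi⟩⟩
  have h1 := (Finset.card_le_card hsub).trans (Finset.card_biUnion_le_card_mul _ _ _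
    (fun i _ => bad_card H G m h2 D hD1 hD r h i))
  rw [Finset.card_univ] at h1
  omega

end Good

section Embed

variable {U V W : Type} [Fintype U] [Fintype V] [Fintype W] {H : SimpleGraph U}
  {G : SimpleGraph V} {m : ℕ}

/-- every nonempty set of vertices contains a vertex with at most `r` neighbours in the set -/
def Degen (F : SimpleGraph W) (r : ℕ) : Prop :=
  ∀ S : Finset W, S.Nonempty → ∃ w ∈ S, (S.filter (fun v => F.Adj w v)).card ≤ r

theorem embed (h2 : TwoConn H) (F : SimpleGraph W) (r : ℕ) (hF : Degen F r)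
    (κ : W → U) (hκ : ∀ a b, F.Adj a b → H.Adj (κ a) (κ b)) (Φ : U → Fin (m + 1) → V)
    (hB : IsB H G m Φ) (hg : ∀ i, Good H G m r (Fintype.card W) Φ i) :
    ∀ (n : ℕ) (S : Finset W), S.card = n → ∃ f : W → V, Set.InjOn f S ∧
      (∀ w ∈ S, f w ∈ CN H G m Φ (κ w)) ∧ ∀ w ∈ S, ∀ w' ∈ S, F.Adj w w' → G.Adj (f w) (f w') := by
  intro n
  induction n with
  | zero =>
    intro S hS
    rw [Finset.card_eq_zero] at hS
    subst hS
    have hU : Nonempty U := by
      rw [← Fintype.card_pos_iff]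
      have := h2.1
      omega
    obtain ⟨u⟩ := hU
    exact ⟨fun _ => Φ u 0, by simp, by simp, by simp⟩
  | succ n ih =>
    intro S hS
    have hSne : S.Nonempty := by
      rw [← Finset.card_pos]; omega
    obtain ⟨w, hw, hwr⟩ := hF S hSne
    obtain ⟨f, hf1, hf2, hf3⟩ := ih (S.erase w) (by rw [Finset.card_erase_of_mem hw, hS]; rfl)
    set Ng := (S.erase w).filter (fun v => F.Adj w v) with hNg
    have hNgc : Ng.card ≤ r := by
      refine (Finset.card_le_card ?_).trans hwr
      exact Finset.filter_subset_filter _ (Finset.erase_subset _ _)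
    -- a neighbour of `κ w`
    obtain ⟨u0, hu0⟩ : ∃ u0, H.Adj (κ w) u0 := by
      have h1 : 1 < Fintype.card U := by have := h2.1; omega
      obtain ⟨z, hz⟩ := Fintype.exists_ne_of_one_lt_card h1 (κ w)
      obtain ⟨j, -, hj⟩ := h2.two z (κ w) (fun e => hz e.symm)
      exact ⟨j, hj⟩
    set e := Ng.equivFin with he
    set Sf : Fin r → V := fun l => if hl : (l : ℕ) < Ng.card then f (e.symm ⟨l, hl⟩).1 else Φ u0 0
      with hSf
    have hmem : ∀ v ∈ Ng, v ∈ S.erase w ∧ F.Adj w v := by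
      intro v hv
      exact Finset.mem_filter.1 hv
    have hS1 : ∀ l, ∃ u, H.Adj (κ w) u ∧ Sf l ∈ CN H G m Φ u := by
      intro l
      by_cases hl : (l : ℕ) < Ng.card
      · have h3 := hmem _ (e.symm ⟨l, hl⟩).2
        refine ⟨κ (e.symm ⟨l, hl⟩).1, hκ _ _ h3.2, ?_⟩
        simp only [hSf, dif_pos hl]
        exact hf2 _ h3.1
      · refine ⟨u0, hu0, ?_⟩
        simp only [hSf, dif_neg hl]
        exact self_CN hB u0 0
    have h5 := hg (κ w) Sf hS1
    have h6 : ((S.erase w).image f).card <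
        ((CN H G m Φ (κ w)).filter (fun v => ∀ l, G.Adj v (Sf l))).card := by
      refine lt_of_lt_of_le ?_ h5
      refine lt_of_le_of_lt Finset.card_image_le ?_
      rw [← Finset.card_univ]
      refine Finset.card_lt_card ?_
      rw [Finset.ssubset_iff_of_subset (Finset.subset_univ _)]
      exact ⟨w, Finset.mem_univ _, Finset.notMem_erase _ _⟩
    obtain ⟨v, hv1, hv2⟩ := Finset.exists_mem_notMem_of_card_lt_card h6
    rw [Finset.mem_filter] at hv1
    have hadj : ∀ v' ∈ S.erase w, F.Adj w v' → G.Adj v (f v') := by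
      intro v' hv' hwv
      have hvN : v' ∈ Ng := Finset.mem_filter.2 ⟨hv', hwv⟩
      set l0 := e ⟨v', hvN⟩ with hl0
      have hl1 : (l0 : ℕ) < Ng.card := l0.2
      have hl2 : (l0 : ℕ) < r := lt_of_lt_of_le hl1 hNgc
      have h7 := hv1.2 ⟨l0, hl2⟩
      simp only [hSf] at h7
      rw [dif_pos hl1] at h7
      have h8 : e.symm ⟨(l0 : ℕ), hl1⟩ = ⟨v', hvN⟩ := by
        rw [Equiv.symm_apply_eq]
      rw [h8] at h7
      exact h7
    refine ⟨Function.update f w v, ?_, ?_, ?_⟩
    · intro a ha b hb hab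
      by_cases ha' : a = w
      · by_cases hb' : b = w
        · rw [ha', hb']
        · exfalso
          rw [ha', Function.update_self, Function.update_of_ne hb'] at hab
          exact hv2 (Finset.mem_image.2 ⟨b, Finset.mem_erase.2 ⟨hb', hb⟩, hab.symm⟩)
      · by_cases hb' : b = w
        · exfalso
          rw [hb', Function.update_self, Function.update_of_ne ha'] at hab
          exact hv2 (Finset.mem_image.2 ⟨a, Finset.mem_erase.2 ⟨ha', ha⟩, hab⟩)
        · rw [Function.update_of_ne ha', Function.update_of_ne hb'] at hab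
          exact hf1 (Finset.mem_coe.2 (Finset.mem_erase.2 ⟨ha', ha⟩))
            (Finset.mem_coe.2 (Finset.mem_erase.2 ⟨hb', hb⟩)) hab
    · intro a ha
      by_cases ha' : a = w
      · rw [ha', Function.update_self]; exact hv1.1
      · rw [Function.update_of_ne ha']
        exact hf2 a (Finset.mem_erase.2 ⟨ha', ha⟩)
    · intro a ha b hb hab
      by_cases ha' : a = w
      · have hb' : b ≠ w := by rintro rfl; exact hab.ne ha'
        rw [ha', Function.update_self, Function.update_of_ne hb']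
        rw [ha'] at hab
        exact hadj b (Finset.mem_erase.2 ⟨hb', hb⟩) hab
      · by_cases hb' : b = w
        · rw [hb', Function.update_self, Function.update_of_ne ha']
          rw [hb'] at hab
          exact (hadj a (Finset.mem_erase.2 ⟨ha', ha⟩) hab.symm).symm
        · rw [Function.update_of_ne ha', Function.update_of_ne hb']
          exact hf3 a (Finset.mem_erase.2 ⟨ha', ha⟩) b (Finset.mem_erase.2 ⟨hb', hb⟩) hab

end Embed

section Main

variable {U V W : Type} [Fintype U] [Fintype V] [Fintype W]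

/-- **Many homomorphisms of a partial blow-up of `H` give all `r`-degenerate graphs which have a
homomorphism to `H`.** -/
theorem contained {H : SimpleGraph U} (h2 : TwoConn H) (G : SimpleGraph V) (m D : ℕ) (hD1 : 1 ≤ D)
    (hD : ∀ v, ∀ N : Finset V, (∀ w ∈ N, G.Adj v w) → N.card ≤ D) (hV : 0 < Fintype.card V)
    (F : SimpleGraph W) (r : ℕ) (hF : Degen F r)
    (κ : W → U) (hκ : ∀ a b, F.Adj a b → H.Adj (κ a) (κ b))
    (J0 : Finset U) (E : ℝ) (hE : 0 ≤ E)
    (hnum : ((Fintype.card U : ℝ) ^ (r + 1) * (Fintype.card W : ℝ) ^ (m + 1)) * (D : ℝ) ^ r <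
      (D : ℝ) ^ (m + 1) * E ^ ((m + 1) ^ (Fintype.card U - J0.card)))
    (h : (Fintype.card V : ℝ) * (D : ℝ) ^ Wt U m J0 * E ≤ ((A H G m J0).card : ℝ)) :
    ∃ f : W → V, Function.Injective f ∧ ∀ a b, F.Adj a b → G.Adj (f a) (f b) := by
  have h3 := chain H G m h2 D hD1 hD hV J0 E hE h (univ \ J0) Finset.disjoint_sdiff
  rw [Finset.union_sdiff_of_subset (Finset.subset_univ _),
    Finset.card_sdiff_of_subset (Finset.subset_univ _), Finset.card_univ] at h3
  have hq : 3 ≤ Fintype.card U := h2.1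
  set q := Fintype.card U with hqdef
  have hWt : Wt U m univ = q * (m + 1) - 1 := by
    rw [Wt, Finset.card_univ, Nat.sub_self, Nat.add_zero]
  rw [hWt] at h3
  have hlt : q * ((D ^ ((q - 1) * (m + 1) - 1) * Fintype.card V) *
        ((q * D) ^ r * (Fintype.card W) ^ (m + 1))) < (A H G m univ).card := by
    have hlt' : (q : ℝ) * (((D : ℝ) ^ ((q - 1) * (m + 1) - 1) * Fintype.card V) *
        (((q : ℝ) * D) ^ r * (Fintype.card W : ℝ) ^ (m + 1))) < ((A H G m univ).card : ℝ) := by
      refine lt_of_lt_of_le ?_ h3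
      have hpos : 0 < (Fintype.card V : ℝ) * (D : ℝ) ^ ((q - 1) * (m + 1) - 1) := by
        have : 0 < (Fintype.card V : ℝ) := by exact_mod_cast hV
        have : (0 : ℝ) < D := by exact_mod_cast hD1
        positivity
      have e1 : q * (m + 1) - 1 = ((q - 1) * (m + 1) - 1) + (m + 1) := by
        obtain ⟨k, hk⟩ : ∃ k, q = k + 3 := ⟨q - 3, by omega⟩
        rw [hk]
        have e2 : (k + 3 - 1) * (m + 1) = k * (m + 1) + 2 * (m + 1) := by
          have : k + 3 - 1 = k + 2 := by omega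
          rw [this]; ring
        have e3 : (k + 3) * (m + 1) = k * (m + 1) + 3 * (m + 1) := by ring
        rw [e2, e3]
        omega
      have e5 : (D : ℝ) ^ (q * (m + 1) - 1) =
          (D : ℝ) ^ ((q - 1) * (m + 1) - 1) * (D : ℝ) ^ (m + 1) := by rw [e1, pow_add]
      rw [e5]
      calc (q : ℝ) * (((D : ℝ) ^ ((q - 1) * (m + 1) - 1) * Fintype.card V) *
            (((q : ℝ) * D) ^ r * (Fintype.card W : ℝ) ^ (m + 1))) =
          ((Fintype.card V : ℝ) * (D : ℝ) ^ ((q - 1) * (m + 1) - 1)) *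
            (((q : ℝ) ^ (r + 1) * (Fintype.card W : ℝ) ^ (m + 1)) * (D : ℝ) ^ r) := by
            rw [mul_pow]; ring
        _ < ((Fintype.card V : ℝ) * (D : ℝ) ^ ((q - 1) * (m + 1) - 1)) *
            ((D : ℝ) ^ (m + 1) * E ^ ((m + 1) ^ (q - J0.card))) :=
            mul_lt_mul_of_pos_left hnum hpos
        _ = _ := by ring
    exact_mod_cast hlt'
  obtain ⟨Φ, hΦ1, hΦ2⟩ := exists_good H G m h2 D hD1 hD r (Fintype.card W) hlt
  obtain ⟨f, hf1, -, hf3⟩ := embed h2 F r hF κ hκ Φ hΦ1 hΦ2 _ univ rfl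
  refine ⟨f, ?_, fun a b hab => hf3 a (Finset.mem_univ _) b (Finset.mem_univ _) hab⟩
  intro a b hab
  exact hf1 (Finset.mem_coe.2 (Finset.mem_univ _)) (Finset.mem_coe.2 (Finset.mem_univ _)) hab

end Main

end Pool.Agent.Helper54.AK
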