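import Mathlib
import Pool.Agent.Helper54.AK.Sample
import Pool.Agent.Helper54.AK.Eng
import Pool.Agent.Helper54.AK.Own
import Pool.Agent.TH855.Blow
import Pool.Agent.TH855.CBounds

set_option autoImplicit false

/-!
# The bound for degenerate graphs with a homomorphism to `H`
-/

namespace Pool.Agent.Helper54.AK

open Finset Filter Classical Pool.Agent.Helper311.Glue Pool.Agent.TH855

set_option linter.unusedSectionVars false

section BTy

variable {U : Type} [Fintype U] (H : SimpleGraph U) (m : ℕ) (J : Finset U)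

/-- the vertices of the partial blow-up -/
abbrev BT (m : ℕ) (J : Finset U) : Type := {p : U × Fin (m + 1) // p.1 ∈ J ∨ p.2 = 0}

/-- the blow-up of `H` in the classes of `J` -/
def BG : SimpleGraph (BT m J) := H.comap (fun p => p.1.1)

theorem card_BT : Fintype.card (BT m J) = J.card * (m + 1) + (Fintype.card U - J.card) := by
  rw [Fintype.card_subtype]
  have h1 : (univ.filter (fun p : U × Fin (m + 1) => p.1 ∈ J ∨ p.2 = 0)) =
      (J ×ˢ (univ : Finset (Fin (m + 1)))) ∪ ((univ \ J) ×ˢ ({0} : Finset (Fin (m + 1)))) := by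
    ext ⟨u, a⟩
    simp only [Finset.mem_filter, Finset.mem_univ, true_and, Finset.mem_union, Finset.mem_product,
      Finset.mem_sdiff, Finset.mem_singleton, and_true]
    tauto
  rw [h1, Finset.card_union_of_disjoint, Finset.card_product, Finset.card_product,
    Finset.card_univ, Fintype.card_fin, Finset.card_singleton, mul_one,
    Finset.card_sdiff_of_subset (Finset.subset_univ _), Finset.card_univ]
  rw [Finset.disjoint_left]
  rintro ⟨u, a⟩ h2 h3
  rw [Finset.mem_product] at h2 h3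
  exact (Finset.mem_sdiff.1 h3.1).2 h2.1

theorem BG_conn {H : SimpleGraph U} (h2 : TwoConn H) : (BG H m J).Connected := by
  refine conn_comap H h2.conn (fun p : BT m J => p.1.1) ?_ ?_
  · intro u
    exact ⟨⟨(u, 0), Or.inr rfl⟩, rfl⟩
  · intro u
    have h1 : 1 < Fintype.card U := by have := h2.1; omega
    obtain ⟨z, hz⟩ := Fintype.exists_ne_of_one_lt_card h1 u
    obtain ⟨j, -, hj⟩ := h2.two z u (fun e => hz e.symm)
    exact ⟨j, hj⟩

end BTy

section Count

variable {U V : Type} [Fintype U] [Fintype V] (H : SimpleGraph U) (G : SimpleGraph V) (m : ℕ)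

/-- homomorphisms of the partial blow-up, as functions on all of `U × Fin (m + 1)` -/
theorem hom_le_A (J : Finset U) (Ψ : Finset (BT m J → V)) (hΨ : ∀ ψ ∈ Ψ, IsHom (BG H m J) G ψ) :
    Ψ.card ≤ (A H G m J).card := by
  refine Finset.card_le_card_of_injOn (fun ψ u a =>
    if h : u ∈ J then ψ ⟨(u, a), Or.inl h⟩ else ψ ⟨(u, 0), Or.inr rfl⟩) ?_ ?_
  · intro ψ hψ
    have h1 := hΨ ψ (Finset.mem_coe.1 hψ)
    rw [Finset.mem_coe, A, Finset.mem_filter]
    refine ⟨Finset.mem_univ _, ?_, ?_⟩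
    · intro u u' huu a b
      by_cases h : u ∈ J <;> by_cases h' : u' ∈ J <;>
        simp only [h, h', dif_pos, dif_neg, not_false_eq_true] <;>
        exact h1 _ _ (by simpa [BG] using huu)
    · intro u hu a
      simp only [hu, dif_neg, not_false_eq_true]
  · intro ψ _ ψ' _ h
    funext p
    obtain ⟨⟨u, a⟩, hp⟩ := p
    have h1 := congrFun (congrFun h u) a
    by_cases hu : u ∈ J
    · simp only [hu, dif_pos] at h1
      exact h1
    · simp only [hu, dif_neg, not_false_eq_true] at h1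
      have ha : a = 0 := hp.resolve_left hu
      subst ha
      exact h1

end Count

section Bound

variable {U V W : Type} [Fintype U] [Fintype V] [Fintype W]

/-- in an `F`-free graph every set of vertices contains few copies of the partial blow-up -/
theorem few {H : SimpleGraph U} (h2 : TwoConn H) (G : SimpleGraph V) (m D : ℕ) (hD1 : 1 ≤ D)
    (hD : ∀ v, ∀ N : Finset V, (∀ w ∈ N, G.Adj v w) → N.card ≤ D)
    (F : SimpleGraph W) (hfree : F.Free G) (r : ℕ) (hF : Degen F r)
    (κ : W → U) (hκ : ∀ a b, F.Adj a b → H.Adj (κ a) (κ b))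
    (J0 : Finset U) (E : ℝ) (hE : 0 ≤ E)
    (hnum : ((Fintype.card U : ℝ) ^ (r + 1) * (Fintype.card W : ℝ) ^ (m + 1)) * (D : ℝ) ^ r <
      (D : ℝ) ^ (m + 1) * E ^ ((m + 1) ^ (Fintype.card U - J0.card)))
    (S : Finset V) :
    (((univ.filter (fun ψ : BT m J0 → V => Function.Injective ψ ∧
      IsHom (BG H m J0) G ψ)).filter (fun ψ => ∀ z, ψ z ∈ S)).card : ℝ) ≤
      S.card * ((D : ℝ) ^ Wt U m J0 * E) := by
  obtain ⟨b0⟩ := (BG_conn m J0 h2).nonempty
  by_cases hS : S = ∅
  · subst hS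
    have h1 : (univ.filter (fun ψ : BT m J0 → V => Function.Injective ψ ∧
      IsHom (BG H m J0) G ψ)).filter (fun ψ => ∀ z, ψ z ∈ (∅ : Finset V)) = ∅ := by
      apply Finset.filter_eq_empty_iff.2
      intro ψ _ h
      exact absurd (h b0) (Finset.notMem_empty _)
    rw [h1]
    simp
  · have hSne : S.Nonempty := Finset.nonempty_iff_ne_empty.2 hS
    by_contra hcon
    push Not at hcon
    set G' : SimpleGraph {x // x ∈ S} := G.comap Subtype.val with hG'
    have hD' : ∀ v : {x // x ∈ S}, ∀ N : Finset {x // x ∈ S}, (∀ w ∈ N, G'.Adj v w) →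
        N.card ≤ D := by
      intro v N hN
      rw [← Finset.card_map (Function.Embedding.subtype _)]
      refine hD v.1 _ ?_
      intro w hw
      obtain ⟨w', hw', rfl⟩ := Finset.mem_map.1 hw
      exact hN w' hw'
    have hV' : 0 < Fintype.card {x // x ∈ S} := by
      rw [Fintype.card_coe]; exact hSne.card_pos
    set Ψ : Finset (BT m J0 → {x // x ∈ S}) := univ.filter (fun ψ => IsHom (BG H m J0) G' ψ)
      with hΨ
    have h1 : ((univ.filter (fun ψ : BT m J0 → V => Function.Injective ψ ∧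
      IsHom (BG H m J0) G ψ)).filter (fun ψ => ∀ z, ψ z ∈ S)).card ≤ Ψ.card := by
      have hx0 : ∃ x : {x // x ∈ S}, True := by
        obtain ⟨x, hx⟩ := hSne
        exact ⟨⟨x, hx⟩, trivial⟩
      obtain ⟨x0, -⟩ := hx0
      refine Finset.card_le_card_of_injOn
        (fun ψ z => if h : ψ z ∈ S then ⟨ψ z, h⟩ else x0) ?_ ?_
      · intro ψ hψ
        rw [Finset.mem_coe, Finset.mem_filter, Finset.mem_filter] at hψ
        rw [Finset.mem_coe, hΨ, Finset.mem_filter]
        refine ⟨Finset.mem_univ _, ?_⟩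
        intro a b hab
        have ha := hψ.2 a
        have hb := hψ.2 b
        simp only [ha, hb, dif_pos, hG', SimpleGraph.comap_adj]
        exact hψ.1.2.2 a b hab
      · intro ψ hψ ψ' hψ' h
        rw [Finset.mem_coe, Finset.mem_filter] at hψ hψ'
        funext z
        have h3 := congrFun h z
        simp only [hψ.2 z, hψ'.2 z, dif_pos, Subtype.mk.injEq] at h3
        exact h3
    have h3 : Ψ.card ≤ (A H G' m J0).card :=
      hom_le_A H G' m J0 Ψ (fun ψ hψ => (Finset.mem_filter.1 hψ).2)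
    have h4 : (Fintype.card {x // x ∈ S} : ℝ) * (D : ℝ) ^ Wt U m J0 * E ≤
        ((A H G' m J0).card : ℝ) := by
      have h5 : (((univ.filter (fun ψ : BT m J0 → V => Function.Injective ψ ∧
        IsHom (BG H m J0) G ψ)).filter (fun ψ => ∀ z, ψ z ∈ S)).card : ℝ) ≤
          ((A H G' m J0).card : ℝ) := by
        exact_mod_cast h1.trans h3
      rw [Fintype.card_coe, mul_assoc]
      exact hcon.le.trans h5
    obtain ⟨f, hf1, hf2⟩ := contained h2 G' m D hD1 hD' hV' F r hF κ hκ J0 E hE hnum h4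
    refine hfree ⟨⟨⟨fun w => (f w).1, fun {a b} hab => hf2 a b hab⟩, ?_⟩⟩
    intro a b hab
    exact hf1 (Subtype.ext hab)

/-- **the main bound** -/
theorem upTo_main {H : SimpleGraph U} (h2 : TwoConn H) (F : SimpleGraph W) (r m : ℕ)
    (hrm : r < m + 1) (hF : Degen F r) (κ : W → U) (hκ : ∀ a b, F.Adj a b → H.Adj (κ a) (κ b))
    (J0 : Finset U) (hJ0 : J0 ≠ univ) {c : ℝ} (hc : 0 ≤ c) (h : UpTo (BG H m J0) c) :
    UpTo F ((Wt U m J0 : ℝ) * ((m : ℝ) + 1) ^ (Fintype.card U - J0.card) /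
      ((m : ℝ) + 1 - r) * c) := by
  intro ε hε
  set e := Fintype.card U - J0.card with he
  have hU3 := h2.1
  have hJc : J0.card < Fintype.card U := by
    rw [← Finset.card_univ]
    exact Finset.card_lt_card (Finset.ssubset_univ_iff.2 hJ0)
  have he1 : 1 ≤ e := by omega
  set k := Wt U m J0 with hk
  have hcard : Fintype.card (BT m J0) = k + 1 := by
    rw [card_BT, hk, Wt]
    have : J0.card ≤ J0.card * (m + 1) := Nat.le_mul_of_pos_right _ (by omega)
    omega
  have hk1 : 1 ≤ k := by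
    have h3 := card_BT m J0
    have : J0.card ≤ J0.card * (m + 1) := Nat.le_mul_of_pos_right _ (by omega)
    omega
  have hkpos : (0 : ℝ) < k := by exact_mod_cast hk1
  set s : ℝ := (m : ℝ) + 1 with hs
  have hs1 : 1 ≤ s := by rw [hs]; have : (0 : ℝ) ≤ m := by positivity
                         linarith
  have hsr : 0 < s - r := by
    have : (r : ℝ) < (m : ℝ) + 1 := by exact_mod_cast hrm
    rw [hs]; linarith
  have hse : 0 < s ^ e := by positivity
  -- the exponent
  set γ0 : ℝ := (s - r) / s ^ e with hγ0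
  have hγ0pos : 0 < γ0 := by positivity
  have hγ01 : γ0 ≤ 1 := by
    rw [hγ0, div_le_one hse]
    have h1 : s ≤ s ^ e := le_self_pow₀ hs1 (by omega)
    have : (0 : ℝ) ≤ r := by positivity
    linarith
  set τ : ℝ := min (1 / 2) (ε * γ0 / (4 * (k * c + 1))) with hτ
  have hτ2 : τ ≤ 1 / 2 := min_le_left _ _
  have hτε : τ ≤ ε * γ0 / (4 * (k * c + 1)) := min_le_right _ _
  have hτ0 : 0 < τ := lt_min (by norm_num) (by positivity)
  set γ : ℝ := γ0 * (1 - τ) with hγ
  have hγpos : 0 < γ := mul_pos hγ0pos (by linarith)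
  have hγ1 : γ ≤ 1 := by
    have : γ0 * (1 - τ) ≤ 1 * 1 := mul_le_mul hγ01 (by linarith) (by linarith) (by norm_num)
    linarith
  have hγlt : γ * s ^ e < s - r := by
    have h1 : γ0 * s ^ e = s - r := by rw [hγ0]; field_simp
    have h3 : γ * s ^ e = (s - r) * (1 - τ) := by rw [hγ, ← h1]; ring
    rw [h3]
    have := mul_pos hsr hτ0
    linarith
  have hkγ : k / γ * c ≤ k * s ^ e / (s - r) * c + ε / 2 := by
    have h1 : (k : ℝ) * s ^ e / (s - r) = k / γ0 := by rw [hγ0]; field_simp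
    rw [h1]
    have h3 : (k : ℝ) / γ ≤ k / γ0 * (1 + 2 * τ) := by
      rw [div_mul_eq_mul_div, div_le_div_iff₀ hγpos hγ0pos, hγ]
      have h4 : (1 : ℝ) ≤ (1 + 2 * τ) * (1 - τ) := by
        have := mul_nonneg hτ0.le (show (0 : ℝ) ≤ 1 - 2 * τ by linarith)
        linarith
      have h5 := mul_le_mul_of_nonneg_left h4 (show (0 : ℝ) ≤ k * γ0 by positivity)
      calc (k : ℝ) * γ0 = k * γ0 * 1 := by ring
        _ ≤ k * γ0 * ((1 + 2 * τ) * (1 - τ)) := h5
        _ = _ := by ring
    have h6 := mul_le_mul_of_nonneg_right h3 hc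
    have h7 : (k : ℝ) / γ0 * (1 + 2 * τ) * c = k / γ0 * c + 2 * τ * (k * c) / γ0 := by
      field_simp
    have h8 : 2 * τ * (k * c) / γ0 ≤ ε / 2 := by
      rw [div_le_iff₀ hγ0pos]
      rw [le_div_iff₀ (by positivity)] at hτε
      have h9 : τ * (4 * (k * c + 1)) = 2 * (2 * τ * (k * c)) + 4 * τ := by ring
      linarith
    linarith
  obtain ⟨D₀, hD₀⟩ := engine_own (BG H m J0) hc (UpTo.gb hc h) (BG H m J0) (BG_conn m J0 h2) k hk1
    hcard γ hγpos hγ1 (Fintype.card (BT m J0)) (by positivity) (ε / 2) (by linarith)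
  -- the numerical condition
  set Q : ℝ := (Fintype.card U : ℝ) ^ (r + 1) * (Fintype.card W : ℝ) ^ (m + 1) with hQ
  have hQ0 : 0 ≤ Q := by positivity
  have hpos : 0 < s - r - γ * s ^ e := by linarith
  have E1 : ∀ᶠ L : ℝ in atTop, Q + 1 ≤ Real.exp ((s - r - γ * s ^ e) * L) :=
    (Real.tendsto_exp_atTop.comp (tendsto_id.const_mul_atTop hpos)).eventually_ge_atTop _
  have hlogtend : Tendsto (fun n : ℕ => Real.log (n : ℝ)) atTop atTop :=
    Real.tendsto_log_atTop.comp tendsto_natCast_atTop_atTop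
  obtain ⟨D₁, hD₁⟩ := eventually_atTop.1 (hlogtend.eventually E1)
  refine ⟨max (max D₀ D₁) 1, ?_⟩
  intro Δ hΔ V' _ G _ hfree hmax
  have hΔ0 : D₀ ≤ Δ := (le_max_left _ _).trans ((le_max_left _ _).trans hΔ)
  have hΔ1 : D₁ ≤ Δ := (le_max_right _ _).trans ((le_max_left _ _).trans hΔ)
  have hΔ2 : 1 ≤ Δ := (le_max_right _ _).trans hΔ
  have e1 := hD₁ Δ hΔ1
  set L := Real.log (Δ : ℝ) with hL
  have hΔr : (1 : ℝ) ≤ Δ := by exact_mod_cast hΔ2
  have hΔexp : (Δ : ℝ) = Real.exp L := by rw [hL, Real.exp_log (by linarith)]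
  have hL0 : 0 ≤ L := Real.log_nonneg hΔr
  set E : ℝ := Real.exp (-(γ * L)) with hE
  have hD' : ∀ v, ∀ N : Finset V', (∀ w ∈ N, G.Adj v w) → N.card ≤ Δ := by
    intro v N hN
    have h1 : N ⊆ G.neighborFinset v := by
      intro w hw
      rw [SimpleGraph.mem_neighborFinset]
      exact hN w hw
    refine (Finset.card_le_card h1).trans ?_
    rw [SimpleGraph.card_neighborFinset_eq_degree, ← hmax]
    exact G.degree_le_maxDegree v
  have hnum : Q * (Δ : ℝ) ^ r < (Δ : ℝ) ^ (m + 1) * E ^ ((m + 1) ^ e) := by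
    have h1 : (Δ : ℝ) ^ (m + 1) * E ^ ((m + 1) ^ e) =
        (Δ : ℝ) ^ r * Real.exp ((s - r - γ * s ^ e) * L) := by
      rw [hΔexp, hE, ← Real.exp_nat_mul, ← Real.exp_nat_mul, ← Real.exp_nat_mul, ← Real.exp_add,
        ← Real.exp_add]
      congr 1
      rw [hs]
      push_cast
      ring
    rw [h1, mul_comm Q]
    have h3 : 0 < (Δ : ℝ) ^ r := by positivity
    refine mul_lt_mul_of_pos_left ?_ h3
    linarith
  suffices hmain : ∃ n : ℕ, (n : ℝ) ≤ (k / γ * c + ε / 2) * ((Δ : ℝ) / L) ∧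
      ColOn G Set.univ n by
    obtain ⟨n, hn, hcol⟩ := hmain
    refine ⟨n, colorable_of_colOn hcol, hn.trans ?_⟩
    exact mul_le_mul_of_nonneg_right (by linarith) (div_nonneg (by linarith) hL0)
  set Ψ : Finset (BT m J0 → V') := univ.filter (fun ψ => Function.Injective ψ ∧
      IsHom (BG H m J0) G ψ) with hΨ
  set M : ℝ := (Δ : ℝ) ^ k * E with hM
  have hM0 : 0 ≤ M := by positivity
  have hne : Nonempty (BT m J0) := (BG_conn m J0 h2).nonempty
  obtain ⟨own, ho1, ho2⟩ := owners Ψ M hM0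
    (few h2 G m Δ hΔ2 hD' F hfree r hF κ hκ J0 E (Real.exp_pos _).le hnum) _ univ rfl
  refine hD₀ Δ hΔ0 V' G (fun v => by rw [← hmax]; exact G.degree_le_maxDegree v) Ψ ?_ own ?_ ?_ ?_
  · intro ψ hψ
    exact (Finset.mem_filter.1 hψ).2
  · intro ψ hψ
    exact ho1 ψ hψ (fun z => Finset.mem_univ _)
  · intro y
    have h1 := ho2 y
    have h3 : Ψ.filter (fun ψ => (∀ z, ψ z ∈ (univ : Finset V')) ∧ own ψ = y) =
        Ψ.filter (fun ψ => own ψ = y) := by
      apply Finset.filter_congr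
      intro ψ _
      simp
    rw [h3] at h1
    refine h1.trans (le_of_eq ?_)
    rw [hM, hE]
    congr 1
    rw [← hL, hΔexp, ← Real.exp_nat_mul, ← Real.exp_add]
    congr 1
    ring
  · rintro T ⟨φ, hφ, hφT⟩
    exact ⟨φ, Finset.mem_filter.2 ⟨Finset.mem_univ _, hφ.1, hφ.2⟩, hφT.le⟩

end Bound

end Pool.Agent.Helper54.AK
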